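import Pool.Agent.MP_a2d820_lc.h8.Lower

/-! Building hard sets as wide sums. -/

namespace Pool.Agent.MP_a2d820_lc.h8

open Pointwise

variable {G : Type} [AddCommGroup G]

theorem Lay.translate {ι : Type} {J : Finset ι} {τ : ι → ℚ} {F : Set G} {p : G} {Q : ι → Set G}
    {w y z : G →+ ℚ} {y0 z0 : ℚ} (h : Lay J τ F p Q w y z y0 z0) (m : G) :
    Lay J τ ({m} + F) (m + p) (fun c => {m} + Q c) w y z (y m + y0) (z m + z0) where
  inj := h.inj
  hy c hc q hq := by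
    obtain ⟨a, ha, rfl⟩ := mem_sing.1 hq
    rw [map_add, h.hy c hc a ha, add_assoc]
  hz c hc q hq := by
    obtain ⟨a, ha, rfl⟩ := mem_sing.1 hq
    rw [map_add, h.hz c hc a ha, add_assoc]
  rigid c hc c' hc' q1 h1 q2 h2 r1 h3 r2 h4 he hne := by
    obtain ⟨a1, k1, rfl⟩ := mem_sing.1 h1
    obtain ⟨a2, k2, rfl⟩ := mem_sing.1 h2
    obtain ⟨a3, k3, rfl⟩ := mem_sing.1 h3
    obtain ⟨a4, k4, rfl⟩ := mem_sing.1 h4
    exact h.rigid c hc c' hc' a1 k1 a2 k2 a3 k3 a4 k4 (by simpa using he) (by simpa using hne)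
  top := mem_sing.2 ⟨p, h.top, rfl⟩
  sub c hc := Set.add_subset_add_left (h.sub c hc)
  hw c hc q hq := by
    obtain ⟨a, ha, rfl⟩ := mem_sing.1 hq
    rw [map_add, map_add, h.hw c hc a ha]; ring
  cases x hx := by
    obtain ⟨a, ha, rfl⟩ := mem_sing.1 hx
    rcases h.cases a ha with h1 | ⟨c, hc, h1⟩ | ⟨c1, hc1, c2, hc2, hne, q1, hq1, q2, hq2, h1⟩ | h1
    · exact Or.inl (by rw [h1])
    · exact Or.inr (Or.inl ⟨c, hc, mem_sing.2 ⟨a, h1, rfl⟩⟩)
    · refine Or.inr (Or.inr (Or.inl ⟨c1, hc1, c2, hc2, hne, m + q1, mem_sing.2 ⟨q1, hq1, rfl⟩,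
        m + q2, mem_sing.2 ⟨q2, hq2, rfl⟩, ?_⟩))
      calc m + a + (m + p) = m + m + (a + p) := by abel
        _ = _ := by rw [h1]; abel
    · refine Or.inr (Or.inr (Or.inr ?_))
      simp only [map_add]; linarith

theorem Hard.translate {N : ℕ} : ∀ {j : ℕ} {F : Set G}, Hard N j F → ∀ m, Hard N j ({m} + F)
  | 0, F, h, m => by
    change (N : ℕ∞) ≤ _
    rw [Set.singleton_add, (add_right_injective m).encard_image]
    exact h
  | _ + 1, _, ⟨ι, J, τ, p, Q, w, y, z, y0, z0, hlay, hN, hH⟩, m =>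
    ⟨ι, J, τ, m + p, fun c => {m} + Q c, w, y, z, _, _, hlay.translate m, hN,
      fun c hc => (hH c hc).translate m⟩

theorem sum_cases {ι : Type} (u : G) (R : ι → Set G) (w : G →+ ℚ) (J : Finset ι)
    (hw : ∀ c ∈ J, ∀ q ∈ R c, w q = w u - 1) : ∀ x ∈ ∑ c ∈ J, ({u} ∪ R c),
      x = J.card • u ∨ (∃ c ∈ J, ∃ q ∈ R c, x = J.card • u - u + q) ∨
      (∃ c1 ∈ J, ∃ c2 ∈ J, c1 ≠ c2 ∧ ∃ q1 ∈ R c1, ∃ q2 ∈ R c2,
        x = J.card • u - u - u + q1 + q2) ∨ w x ≤ w (J.card • u) - 3 := by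
  classical
  induction J using Finset.induction_on with
  | empty => intro x hx; left; simpa using hx
  | insert a J ha ih =>
    intro x hx
    rw [Finset.sum_insert ha] at hx
    obtain ⟨g, hg, x', hx', rfl⟩ := hx
    have ih' := ih (fun c hc => hw c (Finset.mem_insert_of_mem hc)) x' hx'
    rw [Finset.card_insert_of_notMem ha, succ_nsmul]
    simp only
    rcases hg with rfl | hg
    · rcases ih' with h | ⟨c, hc, q, hq, h⟩ | ⟨c1, hc1, c2, hc2, hne, q1, hq1, q2, hq2, h⟩ | h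
      · left; rw [h]; abel
      · exact Or.inr (Or.inl ⟨c, Finset.mem_insert_of_mem hc, q, hq, by rw [h]; abel⟩)
      · exact Or.inr (Or.inr (Or.inl ⟨c1, Finset.mem_insert_of_mem hc1, c2,
          Finset.mem_insert_of_mem hc2, hne, q1, hq1, q2, hq2, by rw [h]; abel⟩))
      · refine Or.inr (Or.inr (Or.inr ?_))
        simp only [map_add]; linarith
    · have hwg := hw a (Finset.mem_insert_self _ _) g hg
      rcases ih' with h | ⟨c, hc, q, hq, h⟩ | ⟨c1, hc1, c2, hc2, hne, q1, hq1, q2, hq2, h⟩ | h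
      · exact Or.inr (Or.inl ⟨a, Finset.mem_insert_self _ _, g, hg, by rw [h]; abel⟩)
      · exact Or.inr (Or.inr (Or.inl ⟨a, Finset.mem_insert_self _ _, c,
          Finset.mem_insert_of_mem hc, fun e => ha (e ▸ hc), g, hg, q, hq, by rw [h]; abel⟩))
      · refine Or.inr (Or.inr (Or.inr ?_))
        have e1 := hw c1 (Finset.mem_insert_of_mem hc1) q1 hq1
        have e2 := hw c2 (Finset.mem_insert_of_mem hc2) q2 hq2
        rw [h]
        simp only [map_add, map_sub]; linarith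
      · refine Or.inr (Or.inr (Or.inr ?_))
        simp only [map_add]; linarith

theorem nsmul_mem_sum {ι : Type} (u : G) (R : ι → Set G) (J : Finset ι) :
    J.card • u ∈ ∑ c ∈ J, ({u} ∪ R c) := by
  rw [← Finset.sum_const]
  exact Set.finsetSum_mem_finsetSum _ _ _ fun _ _ => Or.inl rfl

theorem lay_sum {ι : Type} (u : G) (R : ι → Set G) (w y z : G →+ ℚ) (J : Finset ι) (τ : ι → ℚ)
    (inj : ∀ c ∈ J, ∀ c' ∈ J, τ c = τ c' → c = c')
    (hw : ∀ c ∈ J, ∀ q ∈ R c, w q = w u - 1) (hy : ∀ c ∈ J, ∀ q ∈ R c, y q = τ c)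
    (hz : ∀ c ∈ J, ∀ q ∈ R c, z q = τ c ^ 2)
    (rigid : ∀ c ∈ J, ∀ c' ∈ J, ∀ q1 ∈ R c, ∀ q2 ∈ R c, ∀ r1 ∈ R c', ∀ r2 ∈ R c',
      q1 - q2 = r1 - r2 → q1 ≠ q2 → c = c') :
    Lay J τ (∑ c ∈ J, ({u} ∪ R c)) (J.card • u) (fun c => {J.card • u - u} + R c) w y z
      (y (J.card • u - u)) (z (J.card • u - u)) where
  inj := inj
  hy c hc q hq := by
    obtain ⟨a, ha, rfl⟩ := mem_sing.1 hq
    rw [map_add, hy c hc a ha]
  hz c hc q hq := by
    obtain ⟨a, ha, rfl⟩ := mem_sing.1 hq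
    rw [map_add, hz c hc a ha]
  rigid c hc c' hc' q1 h1 q2 h2 r1 h3 r2 h4 he hne := by
    obtain ⟨a1, k1, rfl⟩ := mem_sing.1 h1
    obtain ⟨a2, k2, rfl⟩ := mem_sing.1 h2
    obtain ⟨a3, k3, rfl⟩ := mem_sing.1 h3
    obtain ⟨a4, k4, rfl⟩ := mem_sing.1 h4
    exact rigid c hc c' hc' a1 k1 a2 k2 a3 k3 a4 k4 (by simpa using he) (by simpa using hne)
  top := nsmul_mem_sum u R J
  sub c hc x hx := by
    classical
    obtain ⟨a, ha, rfl⟩ := mem_sing.1 hx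
    rw [← Finset.add_sum_erase _ _ hc]
    refine ⟨a, Or.inr ha, _, nsmul_mem_sum u R (J.erase c), ?_⟩
    rw [← Finset.card_erase_add_one hc, succ_nsmul]
    simp only
    abel
  hw c hc q hq := by
    obtain ⟨a, ha, rfl⟩ := mem_sing.1 hq
    rw [map_add, map_sub, hw c hc a ha]; ring
  cases x hx := by
    rcases sum_cases u R w J hw x hx with
      h | ⟨c, hc, q, hq, h⟩ | ⟨c1, hc1, c2, hc2, hne, q1, hq1, q2, hq2, h⟩ | h
    · exact Or.inl h
    · exact Or.inr (Or.inl ⟨c, hc, mem_sing.2 ⟨q, hq, h.symm⟩⟩)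
    · exact Or.inr (Or.inr (Or.inl ⟨c1, hc1, c2, hc2, hne, _, mem_sing.2 ⟨q1, hq1, rfl⟩, _,
        mem_sing.2 ⟨q2, hq2, rfl⟩, by rw [h]; abel⟩))
    · exact Or.inr (Or.inr (Or.inr (by linarith)))

theorem hard_sum {N j : ℕ} {ι : Type} (u : G) (R : ι → Set G) (w y z : G →+ ℚ) (J : Finset ι)
    (τ : ι → ℚ) (inj : ∀ c ∈ J, ∀ c' ∈ J, τ c = τ c' → c = c')
    (hw : ∀ c ∈ J, ∀ q ∈ R c, w q = w u - 1) (hy : ∀ c ∈ J, ∀ q ∈ R c, y q = τ c)
    (hz : ∀ c ∈ J, ∀ q ∈ R c, z q = τ c ^ 2)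
    (rigid : ∀ c ∈ J, ∀ c' ∈ J, ∀ q1 ∈ R c, ∀ q2 ∈ R c, ∀ r1 ∈ R c', ∀ r2 ∈ R c',
      q1 - q2 = r1 - r2 → q1 ≠ q2 → c = c') (hN : N ≤ J.card) (hH : ∀ c ∈ J, Hard N j (R c)) :
    Hard N (j + 1) (∑ c ∈ J, ({u} ∪ R c)) :=
  ⟨ι, J, τ, _, _, w, y, z, _, _, lay_sum u R w y z J τ inj hw hy hz rigid, hN,
    fun c hc => (hH c hc).translate _⟩

/-- the part of `A` at height `D` -/
def lev (h : G →+ ℚ) (A : Set G) (D : ℚ) : Set G := {x | x ∈ A ∧ h x = D}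

theorem le_add {h : G →+ ℚ} {A B : Set G} {D E : ℚ} (hA : ∀ x ∈ A, h x ≤ D)
    (hB : ∀ x ∈ B, h x ≤ E) : ∀ x ∈ A + B, h x ≤ D + E := by
  rintro _ ⟨a, ha, b, hb, rfl⟩
  simp only [map_add]
  exact add_le_add (hA a ha) (hB b hb)

theorem lev_add {h : G →+ ℚ} {A B : Set G} {D E : ℚ} (hA : ∀ x ∈ A, h x ≤ D)
    (hB : ∀ x ∈ B, h x ≤ E) : lev h (A + B) (D + E) = lev h A D + lev h B E := by
  ext x
  constructor
  · rintro ⟨⟨a, ha, b, hb, rfl⟩, he⟩
    simp only [map_add] at he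
    have h1 := hA a ha
    have h2 := hB b hb
    exact ⟨a, ⟨ha, by linarith⟩, b, ⟨hb, by linarith⟩, rfl⟩
  · rintro ⟨a, ⟨ha, h1⟩, b, ⟨hb, h2⟩, rfl⟩
    exact ⟨⟨a, ha, b, hb, rfl⟩, by simp only [map_add, h1, h2]⟩

theorem lev_sum {ι : Type} {h : G →+ ℚ} (A : ι → Set G) (D : ι → ℚ) (J : Finset ι)
    (hA : ∀ c ∈ J, ∀ x ∈ A c, h x ≤ D c) : (∀ x ∈ ∑ c ∈ J, A c, h x ≤ ∑ c ∈ J, D c) ∧
      lev h (∑ c ∈ J, A c) (∑ c ∈ J, D c) = ∑ c ∈ J, lev h (A c) (D c) := by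
  classical
  induction J using Finset.induction_on with
  | empty =>
    simp only [Finset.sum_empty, Set.mem_zero]
    refine ⟨fun x hx => by rw [hx, map_zero], ?_⟩
    ext x
    simp only [lev, Set.mem_zero, Set.mem_ofPred_eq]
    exact ⟨fun h => h.1, fun hx => ⟨hx, by rw [hx, map_zero]⟩⟩
  | insert a J ha ih =>
    obtain ⟨h1, h2⟩ := ih fun c hc => hA c (Finset.mem_insert_of_mem hc)
    simp only [Finset.sum_insert ha]
    have h3 := hA a (Finset.mem_insert_self _ _)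
    exact ⟨le_add h3 h1, by rw [lev_add h3 h1, h2]⟩

theorem lev_union (h : G →+ ℚ) (A B : Set G) (D : ℚ) : lev h (A ∪ B) D = lev h A D ∪ lev h B D := by
  ext x; simp only [lev, Set.mem_union, Set.mem_ofPred_eq]; tauto

theorem lev_singleton {h : G →+ ℚ} {a : G} {D : ℚ} (ha : h a = D) : lev h {a} D = {a} := by
  ext x
  simp only [lev, Set.mem_singleton_iff, Set.mem_ofPred_eq]
  exact ⟨fun h => h.1, fun hx => ⟨hx, by rw [hx, ha]⟩⟩

theorem lev_empty {h : G →+ ℚ} {A : Set G} {D E : ℚ} (hA : ∀ x ∈ A, h x ≤ D) (hD : D < E) :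
    lev h A E = ∅ := by
  ext x
  simp only [lev, Set.mem_ofPred_eq, Set.mem_empty_iff_false, iff_false, not_and]
  exact fun hx he => by linarith [hA x hx]

theorem sum_singleton' {ι : Type} (f : ι → G) (J : Finset ι) :
    ∑ c ∈ J, ({f c} : Set G) = {∑ c ∈ J, f c} := by
  classical
  induction J using Finset.induction_on with
  | empty => simp [Set.singleton_zero]
  | insert a J ha ih => rw [Finset.sum_insert ha, Finset.sum_insert ha, ih,
      Set.singleton_add_singleton]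

variable [Module ℚ G]

theorem shift_sum {ι : Type} (P : Submodule ℚ G) (e : G) (A : ι → Set G) (D : ι → ℚ)
    (J : Finset ι) (hA : ∀ c ∈ J, ∀ x ∈ A c, x - D c • e ∈ P) :
    ∀ x ∈ ∑ c ∈ J, A c, x - (∑ c ∈ J, D c) • e ∈ P := by
  classical
  induction J using Finset.induction_on with
  | empty => intro x hx; simp only [Finset.sum_empty, Set.mem_zero] at hx; simp [hx]
  | insert a J ha ih =>
    intro x hx
    rw [Finset.sum_insert ha] at hx
    obtain ⟨g, hg, x', hx', rfl⟩ := hx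
    have h1 := ih (fun c hc => hA c (Finset.mem_insert_of_mem hc)) x' hx'
    have h2 := hA a (Finset.mem_insert_self _ _) g hg
    rw [Finset.sum_insert ha, add_smul]
    convert P.add_mem h2 h1 using 1
    simp only
    abel

theorem span_zero {v : ℕ → G} {φ : ℕ → G →ₗ[ℚ] ℚ}
    (hd : ∀ i i', φ i (v i') = if i = i' then 1 else 0) {x : G}
    (hx : x ∈ Submodule.span ℚ (Set.range v)) (h0 : ∀ i, φ i x = 0) : x = 0 := by
  obtain ⟨c, rfl⟩ := Finsupp.mem_span_range_iff_exists_finsupp.1 hx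
  have : c = 0 := by
    ext i
    have h1 := h0 i
    rw [map_finsuppSum] at h1
    simp only [map_smul, hd, smul_eq_mul, mul_ite, mul_one, mul_zero] at h1
    rw [Finsupp.sum, Finset.sum_ite_eq] at h1
    by_cases hi : i ∈ c.support
    · simpa [hi] using h1
    · simpa using hi
  simp [this]

theorem span_vanish {v : ℕ → G} (ψ : G →ₗ[ℚ] ℚ) (h : ∀ i, ψ (v i) = 0) {x : G}
    (hx : x ∈ Submodule.span ℚ (Set.range v)) : ψ x = 0 := by
  have : Submodule.span ℚ (Set.range v) ≤ LinearMap.ker ψ :=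
    Submodule.span_le.2 (by rintro _ ⟨i, rfl⟩; exact h i)
  exact this hx

end Pool.Agent.MP_a2d820_lc.h8
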