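import Mathlib

/-! Straight-line programs over sets of points (union and Minkowski sum) and the classes `Cl`. -/

namespace Pool.Agent.MP_a2d820_lc.h8

open Pointwise

variable {G : Type} [AddCommGroup G]

/-- Straight-line programs on sets: each entry is a leaf, or a union or Minkowski sum of two later
entries. -/
inductive Prog (Lf : Set G → Prop) : List (Set G) → Prop
  | nil : Prog Lf []
  | leaf {A : Set G} {L : List (Set G)} : Lf A → Prog Lf L → Prog Lf (A :: L)
  | union {A B : Set G} {L : List (Set G)} : A ∈ L → B ∈ L → Prog Lf L → Prog Lf ((A ∪ B) :: L)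
  | add {A B : Set G} {L : List (Set G)} : A ∈ L → B ∈ L → Prog Lf L → Prog Lf ((A + B) :: L)

/-- Wide sums of members of a class. -/
def Wide (K : Set G → Prop) (B : Set G) : Prop := ∃ M : List (Set G), (∀ D ∈ M, K D) ∧ B = M.sum

/-- Programs of length at most `t` over wide sums of members of `K`. -/
def Over (K : Set G → Prop) (t : ℕ) (A : Set G) : Prop :=
  ∃ L, Prog (Wide K) L ∧ L.length ≤ t ∧ A ∈ L

/-- The hierarchy of classes. -/
def Cl : ℕ → ℕ → Set G → Prop
  | 0, s, A => A.encard ≤ s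
  | (j + 1), s, A => Over (Cl j s) s A

theorem Prog.mono {Lf Lf' : Set G → Prop} (h : ∀ A, Lf A → Lf' A) {L : List (Set G)}
    (hL : Prog Lf L) : Prog Lf' L := by
  induction hL with
  | nil => exact .nil
  | leaf hA _ ih => exact .leaf (h _ hA) ih
  | union hA hB _ ih => exact .union hA hB ih
  | add hA hB _ ih => exact .add hA hB ih

theorem Prog.append {Lf : Set G → Prop} {L L' : List (Set G)} (hL : Prog Lf L)
    (hL' : Prog Lf L') : Prog Lf (L ++ L') := by
  induction hL with
  | nil => exact hL'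
  | leaf hA _ ih => exact .leaf hA ih
  | union hA hB _ ih =>
    exact .union (List.mem_append_left _ hA) (List.mem_append_left _ hB) ih
  | add hA hB _ ih =>
    exact .add (List.mem_append_left _ hA) (List.mem_append_left _ hB) ih

theorem Wide.mono {K K' : Set G → Prop} (h : ∀ A, K A → K' A) {B : Set G} (hB : Wide K B) :
    Wide K' B := by
  obtain ⟨M, hM, rfl⟩ := hB
  exact ⟨M, fun D hD => h _ (hM D hD), rfl⟩

theorem Wide.single {K : Set G → Prop} {B : Set G} (hB : K B) : Wide K B :=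
  ⟨[B], by simpa using hB, by simp⟩

theorem Over.mono {K K' : Set G → Prop} (h : ∀ A, K A → K' A) {t t' : ℕ} (ht : t ≤ t')
    {A : Set G} (hA : Over K t A) : Over K' t' A := by
  obtain ⟨L, hL, hl, hm⟩ := hA
  exact ⟨L, hL.mono fun _ => Wide.mono h, hl.trans ht, hm⟩

theorem Over.single {K : Set G → Prop} {B : Set G} (hB : K B) : Over K 1 B :=
  ⟨[B], .leaf (Wide.single hB) .nil, by simp, by simp⟩

theorem Over.union {K : Set G → Prop} {t t' : ℕ} {A B : Set G} (hA : Over K t A)
    (hB : Over K t' B) : Over K (t + t' + 1) (A ∪ B) := by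
  obtain ⟨L, hL, hl, hm⟩ := hA
  obtain ⟨L', hL', hl', hm'⟩ := hB
  refine ⟨(A ∪ B) :: (L ++ L'), .union (List.mem_append_left _ hm) (List.mem_append_right _ hm')
    (hL.append hL'), ?_, by simp⟩
  simp only [List.length_cons, List.length_append]; omega

theorem Over.add {K : Set G → Prop} {t t' : ℕ} {A B : Set G} (hA : Over K t A)
    (hB : Over K t' B) : Over K (t + t' + 1) (A + B) := by
  obtain ⟨L, hL, hl, hm⟩ := hA
  obtain ⟨L', hL', hl', hm'⟩ := hB
  refine ⟨(A + B) :: (L ++ L'), .add (List.mem_append_left _ hm) (List.mem_append_right _ hm')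
    (hL.append hL'), ?_, by simp⟩
  simp only [List.length_cons, List.length_append]; omega

theorem Cl.mono : ∀ {j s s' : ℕ} {A : Set G}, Cl j s A → s ≤ s' → Cl j s' A
  | 0, _, _, _, h, hs => le_trans h (by exact_mod_cast hs)
  | _ + 1, _, _, _, h, hs => Over.mono (fun _ hA => Cl.mono hA hs) hs h

theorem Cl.of_subsingleton : ∀ {j s : ℕ} {A : Set G}, A.Subsingleton → 1 ≤ s → Cl j s A
  | 0, _, _, h, hs => le_trans (Set.encard_le_one_iff_subsingleton.2 h) (by exact_mod_cast hs)
  | _ + 1, _, _, h, hs => Over.mono (fun _ hA => hA) hs (Over.single (Cl.of_subsingleton h hs))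

theorem Cl.union : ∀ {j s t : ℕ} {A B : Set G}, Cl j s A → Cl j t B → Cl j (s + t + 1) (A ∪ B)
  | 0, s, t, A, B, hA, hB => by
    have h := Set.encard_union_le A B
    have h1 : A.encard ≤ s := hA
    have h2 : B.encard ≤ t := hB
    change (A ∪ B).encard ≤ ((s + t + 1 : ℕ) : ℕ∞)
    push_cast
    calc _ ≤ A.encard + B.encard := h
      _ ≤ s + t := add_le_add h1 h2
      _ ≤ _ := le_self_add
  | j + 1, s, t, A, B, hA, hB =>
    Over.union (Over.mono (fun _ h => Cl.mono h (by omega)) le_rfl hA)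
      (Over.mono (fun _ h => Cl.mono h (by omega)) le_rfl hB)

theorem Cl.translate : ∀ {j s : ℕ} {A : Set G} (m : G), Cl j s A → Cl j (s + 2) ({m} + A)
  | 0, s, A, m, hA => by
    have h1 : A.encard ≤ s := hA
    change ({m} + A).encard ≤ ((s + 2 : ℕ) : ℕ∞)
    rw [Set.singleton_add]
    push_cast
    exact (Set.encard_image_le _ _).trans (h1.trans le_self_add)
  | j + 1, s, A, m, hA => by
    have h1 : Over (Cl j (s + 2)) 1 ({m} : Set G) :=
      Over.single (Cl.of_subsingleton Set.subsingleton_singleton (by omega))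
    have h2 := Over.add h1 (Over.mono (fun _ h => Cl.mono h (by omega : s ≤ s + 2)) le_rfl hA)
    exact Over.mono (fun _ h => h) (by omega) h2

/-- The points of `A` where `w` is largest. -/
def face (w : G →+ ℚ) (A : Set G) : Set G := {x | x ∈ A ∧ ∀ y ∈ A, w y ≤ w x}

theorem face_add (w : G →+ ℚ) (A B : Set G) : face w (A + B) = face w A + face w B := by
  ext x
  constructor
  · rintro ⟨⟨a, ha, b, hb, rfl⟩, h⟩
    refine ⟨a, ⟨ha, fun y hy => ?_⟩, b, ⟨hb, fun y hy => ?_⟩, rfl⟩
    · have := h (y + b) ⟨y, hy, b, hb, rfl⟩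
      simp only [map_add] at this
      linarith
    · have := h (a + y) ⟨a, ha, y, hy, rfl⟩
      simp only [map_add] at this
      linarith
  · rintro ⟨a, ⟨ha, ha'⟩, b, ⟨hb, hb'⟩, rfl⟩
    refine ⟨⟨a, ha, b, hb, rfl⟩, ?_⟩
    rintro _ ⟨a', ha1, b', hb1, rfl⟩
    simp only [map_add]
    linarith [ha' a' ha1, hb' b' hb1]

theorem face_union_left (w : G →+ ℚ) {A B : Set G}
    (hA : ∀ x ∈ face w A, ∀ y ∈ B, w y ≤ w x) (hB : ¬ ∀ x ∈ face w B, ∀ y ∈ A, w y ≤ w x) :
    face w (A ∪ B) = face w A := by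
  push Not at hB
  obtain ⟨x0, hx0, y0, hy0, hlt⟩ := hB
  ext x
  constructor
  · rintro ⟨hx | hx, h⟩
    · exact ⟨hx, fun y hy => h y (Or.inl hy)⟩
    · have h1 := h y0 (Or.inl hy0)
      have h2 := hx0.2 x hx
      linarith
  · intro hx
    refine ⟨Or.inl hx.1, ?_⟩
    rintro y (hy | hy)
    · exact hx.2 y hy
    · exact hA x hx y hy

theorem face_union (w : G →+ ℚ) (A B : Set G) :
    face w (A ∪ B) = face w A ∪ face w B ∨ face w (A ∪ B) = face w A ∪ face w A ∨
      face w (A ∪ B) = face w B ∪ face w B := by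
  by_cases hA : ∀ x ∈ face w A, ∀ y ∈ B, w y ≤ w x
  · by_cases hB : ∀ x ∈ face w B, ∀ y ∈ A, w y ≤ w x
    · left
      ext x
      constructor
      · rintro ⟨hx | hx, h⟩
        · exact Or.inl ⟨hx, fun y hy => h y (Or.inl hy)⟩
        · exact Or.inr ⟨hx, fun y hy => h y (Or.inr hy)⟩
      · rintro (hx | hx)
        · refine ⟨Or.inl hx.1, ?_⟩
          rintro y (hy | hy)
          · exact hx.2 y hy
          · exact hA x hx y hy
        · refine ⟨Or.inr hx.1, ?_⟩
          rintro y (hy | hy)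
          · exact hB x hx y hy
          · exact hx.2 y hy
    · right; left
      rw [Set.union_self]
      exact face_union_left w hA hB
  · by_cases hB : ∀ x ∈ face w B, ∀ y ∈ A, w y ≤ w x
    · right; right
      rw [Set.union_self, Set.union_comm]
      exact face_union_left w hB hA
    · exfalso
      push Not at hA hB
      obtain ⟨x0, hx0, y0, hy0, hlt⟩ := hB
      obtain ⟨x1, hx1, y1, hy1, hlt1⟩ := hA
      have h1 := hx0.2 y1 hy1
      have h2 := hx1.2 y0 hy0
      linarith

theorem face_sum (w : G →+ ℚ) (M : List (Set G)) : face w M.sum = (M.map (face w)).sum := by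
  induction M with
  | nil =>
    ext x
    simp only [List.sum_nil, List.map_nil, face, Set.mem_zero, Set.mem_ofPred_eq]
    constructor
    · exact fun h => h.1
    · rintro rfl
      exact ⟨rfl, fun y hy => by rw [hy]⟩
  | cons D M ih => simp only [List.sum_cons, List.map_cons, face_add, ih]

theorem Prog.face (w : G →+ ℚ) {Lf Lf' : Set G → Prop} (h : ∀ A, Lf A → Lf' (face w A))
    {L : List (Set G)} (hL : Prog Lf L) : Prog Lf' (L.map (face w)) := by
  induction hL with
  | nil => exact .nil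
  | leaf hA _ ih => exact .leaf (h _ hA) ih
  | @union A B L hA hB _ ih =>
    have hA' : h8.face w A ∈ L.map (h8.face w) := List.mem_map_of_mem hA
    have hB' : h8.face w B ∈ L.map (h8.face w) := List.mem_map_of_mem hB
    rw [List.map_cons]
    rcases face_union w A B with h1 | h1 | h1 <;> rw [h1]
    · exact .union hA' hB' ih
    · exact .union hA' hA' ih
    · exact .union hB' hB' ih
  | @add A B L hA hB _ ih =>
    rw [List.map_cons, face_add]
    exact .add (List.mem_map_of_mem hA) (List.mem_map_of_mem hB) ih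

theorem Wide.face (w : G →+ ℚ) {K : Set G → Prop} (h : ∀ A, K A → K (face w A)) {B : Set G}
    (hB : Wide K B) : Wide K (face w B) := by
  obtain ⟨M, hM, rfl⟩ := hB
  refine ⟨M.map (h8.face w), ?_, face_sum w M⟩
  intro D hD
  obtain ⟨D', hD', rfl⟩ := List.mem_map.1 hD
  exact h _ (hM _ hD')

theorem Over.face (w : G →+ ℚ) {K : Set G → Prop} (h : ∀ A, K A → K (face w A)) {t : ℕ}
    {B : Set G} (hB : Over K t B) : Over K t (face w B) := by
  obtain ⟨L, hL, hl, hm⟩ := hB
  exact ⟨L.map (h8.face w), hL.face w fun _ hA => hA.face w h, by simpa using hl,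
    List.mem_map_of_mem hm⟩

theorem Cl.face (w : G →+ ℚ) : ∀ {j s : ℕ} {A : Set G}, Cl j s A → Cl j s (face w A)
  | 0, _, _, h => le_trans (Set.encard_le_encard fun _ hx => hx.1) h
  | _ + 1, _, _, h => Over.face w (fun _ hA => Cl.face w hA) h

theorem level_eq_face (w : G →+ ℚ) {A : Set G} {v : ℚ} (hv : ∀ y ∈ A, w y ≤ v)
    (hne : ∃ x ∈ A, w x = v) : {x | x ∈ A ∧ w x = v} = face w A := by
  obtain ⟨x0, hx0, h0⟩ := hne
  ext x
  constructor
  · rintro ⟨hx, h⟩
    exact ⟨hx, fun y hy => h ▸ hv y hy⟩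
  · rintro ⟨hx, h⟩
    exact ⟨hx, le_antisymm (hv x hx) (h0 ▸ h x0 hx0)⟩

theorem Cl.level (w : G →+ ℚ) {j s : ℕ} {A : Set G} (hA : Cl j s A) (hs : 1 ≤ s) {v : ℚ}
    (hv : ∀ y ∈ A, w y ≤ v) : Cl j s {x | x ∈ A ∧ w x = v} := by
  by_cases hne : ∃ x ∈ A, w x = v
  · rw [level_eq_face w hv hne]
    exact hA.face w
  · refine Cl.of_subsingleton ?_ hs
    intro x hx
    exact absurd ⟨x, hx⟩ hne

end Pool.Agent.MP_a2d820_lc.h8
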