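import Pool.Agent.MP_a2d820_lc.h8.Family

/-! The top face of the separating polynomial is a hard set. -/

namespace Pool.Agent.MP_a2d820_lc.h8

open Pointwise MvPolynomial Finset
open scoped NNReal
open Pool.Agent.MP_a2d820_lc.h28

theorem hard_base {n t : ℕ} {W θ : ℕ → Pl} {v : ℕ → ℕ → ℚ} {φ : (ℕ → ℚ) →ₗ[ℚ] ℚ}
    (hφ : φ (v 0) = 1) (hv : co t (v 0) = 0) (hW : sp (bind₁ θ (W 0)) = {v 0}) :
    Hard (2 ^ n) 0 (lev (co t) (sp (bind₁ θ (Fm n t 0 W))) (Dg n 0)) ∧
    ∀ x ∈ lev (co t) (sp (bind₁ θ (Fm n t 0 W))) (Dg n 0),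
      x - (Dg n 0 : ℚ) • Pi.single t (1 : ℚ) ∈ Submodule.span ℚ (Set.range v) := by
  have e : sp (bind₁ θ (Fm n t 0 W)) = ∑ b ∈ range n, ({0} ∪ {((2 ^ b : ℕ) : ℚ) • v 0}) := by
    simp only [Fm, map_prod, map_add, map_one, map_pow]
    rw [sp_prod]
    exact sum_congr rfl fun b _ => by rw [sp_add, sp_one, sp_pow hW]
  rw [e]
  constructor
  · have h1 : (fun s => tau s • v 0) '' ((range n).powerset : Set (Finset ℕ)) ⊆
        lev (co t) (∑ b ∈ range n, ({0} ∪ {((2 ^ b : ℕ) : ℚ) • v 0})) (Dg n 0) := by
      rintro _ ⟨s, hs, rfl⟩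
      have hs' : s ⊆ range n := mem_powerset.1 hs
      refine ⟨?_, ?_⟩
      · have h2 : tau s • v 0 = ∑ b ∈ range n, if b ∈ s then ((2 ^ b : ℕ) : ℚ) • v 0 else 0 := by
          rw [sum_ite_mem, inter_eq_right.2 hs', tau, sum_smul]; push_cast; rfl
        simp only
        rw [h2]
        refine Set.finsetSum_mem_finsetSum _ _ _ fun b _ => ?_
        split_ifs
        · exact Or.inr rfl
        · exact Or.inl rfl
      · have h2 : v 0 t = 0 := hv
        simp [co, Dg, h2]
    refine le_trans ?_ (Set.encard_le_encard h1)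
    rw [Set.InjOn.encard_image, Set.encard_coe_eq_coe_finsetCard, card_powerset, card_range]
    intro s _ s' _ h
    have h2 := congrArg φ h
    simp only [map_smul, hφ, smul_eq_mul, mul_one] at h2
    exact tau_inj h2
  · intro x hx
    have := shift_sum (Submodule.span ℚ (Set.range v)) (Pi.single t (1 : ℚ)) _ (fun _ => 0)
      (range n) (fun b _ x hx => by
        rcases hx with hx | hx <;> rw [hx, zero_smul, sub_zero]
        · exact zero_mem _
        · exact Submodule.smul_mem _ _ (Submodule.subset_span ⟨0, rfl⟩)) x hx.1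
    simpa [Dg] using this

theorem hard_Fm {n t : ℕ} : ∀ (j : ℕ) (_ : 2 * n * j ≤ t) (W : ℕ → Pl)
    (_ : ∀ i θ, Good θ → Le t (bind₁ θ (W i)) 0) (θ : ℕ → Pl) (_ : Good θ) (_ : θ t = X t)
    (v : ℕ → ℕ → ℚ) (φ : ℕ → (ℕ → ℚ) →ₗ[ℚ] ℚ)
    (_ : ∀ i i', φ i (v i') = if i = i' then 1 else 0) (_ : ∀ i, φ i (Pi.single t 1) = 0)
    (_ : ∀ i, co t (v i) = 0)
    (_ : ∀ i θ', (∀ u, 2 * n * j ≤ u → θ' u = θ u) → sp (bind₁ θ' (W i)) = {v i}),
    Hard (2 ^ n) j (lev (co t) (sp (bind₁ θ (Fm n t j W))) (Dg n j)) ∧
    ∀ x ∈ lev (co t) (sp (bind₁ θ (Fm n t j W))) (Dg n j),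
      x - (Dg n j : ℚ) • Pi.single t (1 : ℚ) ∈ Submodule.span ℚ (Set.range v)
  | 0, _, W, _, θ, _, _, v, φ, hd, _, hv, hW =>
    hard_base (φ := φ 0) (by simp [hd]) (hv 0) (hW 0 θ fun _ _ => rfl)
  | j + 1, ht, W, hB, θ, hθ, hθt, v, φ, hd, he, hv, hW => by
    have ht' : 2 * n * j ≤ t := le_trans (by nlinarith) ht
    set e : ℕ → ℚ := Pi.single t 1 with he'
    have hce : co t e = 1 := by simp [co, e]
    set P := Submodule.span ℚ (Set.range v) with hP
    have hvP : ∀ i, v i ∈ P := fun i => Submodule.subset_span ⟨i, rfl⟩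
    set D : ℚ := ((Dg n j : ℕ) : ℚ) with hD
    set u : ℕ → ℚ := v 0 + D • e with hu
    have hcu : co t u = D := by
      have h1 : v 0 t = 0 := hv 0
      simp [co, u, e, h1]
    let v' : Finset ℕ → ℕ → ℕ → ℚ := fun s i => v (2 * i + 3) + tau s • v (2 * i + 4)
    let B : Finset ℕ → Set (ℕ → ℚ) := fun s => lev (co t)
      (sp (bind₁ (upd2 θ n j s (range n \ s)) (Fm n t j (shear n j W)))) D
    let R : Finset ℕ → Set (ℕ → ℚ) := fun s => {tau s • v 1 + tau s • tau s • v 2} + B s
    let Φ : Finset ℕ → Finset ℕ → Set (ℕ → ℚ) := fun s s' =>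
      sp (bind₁ (upd2 θ n j s s') (Fac n t j W (Fm n t j (shear n j W))))
    let δ : Finset ℕ → Finset ℕ → ℚ := fun s s' =>
      ((Dg n j + if (s ∩ s').Nonempty then 1 else 0 : ℕ) : ℚ)
    have hle := fun s s' => le_Fac hθ ht hB s s' (le_Fm j ht' _ (le_shear ht hB) _
      (hθ.upd2 n j s s'))
    have hWs : ∀ s s' i, sp (bind₁ (upd2 θ n j s s') (W i)) = {v i} := fun s s' i =>
      hW i _ fun u hu => upd2_hi θ j s s' hu
    have hXt : ∀ s s' (m : ℕ), sp (bind₁ (upd2 θ n j s s') (X t ^ m)) = {(m : ℚ) • e} := by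
      intro s s' m
      rw [map_pow, bind₁_X_right, upd2_hi θ j s s' ht, hθt]
      exact sp_pow (sp_X t) m
    have hT1 : ∀ s s', sp (bind₁ (upd2 θ n j s s') (W 0 * X t ^ Dg n j)) = {u} := by
      intro s s'
      rw [map_mul, sp_mul, hWs, hXt, Set.singleton_add_singleton]
    -- the induction hypothesis on the valid assignments
    have hd' : ∀ s i i', φ (2 * i + 3) (v' s i') = if i = i' then 1 else 0 := by
      intro s i i'
      simp only [v', map_add, map_smul, hd]
      rw [if_neg (show 2 * i + 3 ≠ 2 * i' + 4 by omega)]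
      by_cases h : i = i'
      · simp [h]
      · rw [if_neg (by omega), if_neg h]; simp
    have IH : ∀ s ⊆ range n, Hard (2 ^ n) j (B s) ∧
        ∀ x ∈ B s, x - D • e ∈ Submodule.span ℚ (Set.range (v' s)) := by
      intro s hs
      refine hard_Fm j ht' _ (le_shear ht hB) _ (hθ.upd2 n j s _)
        (by rw [upd2_hi θ j s _ ht, hθt]) (v' s) (fun i => φ (2 * i + 3)) (hd' s)
        (fun i => he _) (fun i => ?_) (fun i θ' hθ' => ?_)
      · have h1 : v (2 * i + 3) t = 0 := hv _
        have h2 : v (2 * i + 4) t = 0 := hv _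
        simp [co, v', h1, h2]
      · have h1 : ∀ i, sp (bind₁ θ' (W i)) = {v i} := fun i => hW i θ' fun u hu => by
          rw [hθ' u (le_trans (by nlinarith) hu), upd2_hi θ j s _ hu]
        rw [shear, map_mul, sp_mul, h1, sp_PowG hs (fun b hb => ?_) (fun b hb => ?_) (h1 _),
          Set.singleton_add_singleton]
        · rw [hθ' _ (by omega), upd2_c θ j s _ hb]
        · rw [hθ' _ (by omega), upd2_d θ j s _ hb]
    have hspan : ∀ s, Submodule.span ℚ (Set.range (v' s)) ≤ P := fun s =>
      Submodule.span_le.2 (by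
        rintro _ ⟨i, rfl⟩
        exact P.add_mem (hvP _) (P.smul_mem _ (hvP _)))
    have hvalid : ∀ s ⊆ range n, lev (co t) (Φ s (range n \ s)) (δ s (range n \ s)) =
        {u} ∪ R s := by
      intro s hs
      have hov : ¬ (s ∩ (range n \ s)).Nonempty := by simp
      have hc := fun b (hb : b < n) => upd2_c θ j s (range n \ s) hb
      have hd := fun b (hb : b < n) => upd2_d θ j s (range n \ s) hb
      simp only [Φ, δ, if_neg hov, add_zero]
      rw [Fac, map_add, map_add, map_mul _ (X t ^ _), Ov_zero θ hov, mul_zero, add_zero, sp_add,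
        lev_union, hT1, lev_singleton hcu, map_mul, map_mul, sp_mul, sp_mul,
        sp_PowG hs hc hd (hWs _ _ _), sp_PowG hs hc hd (sp_PowG hs hc hd (hWs _ _ _)),
        Set.singleton_add_singleton]
      have h0 : co t (tau s • v 1 + tau s • tau s • v 2) = 0 := by
        have h1 : v 1 t = 0 := hv _
        have h2 : v 2 t = 0 := hv _
        simp [co, h1, h2]
      have := lev_add (h := co t) (A := {tau s • v 1 + tau s • tau s • v 2}) (D := 0) (E := D)
        (by rintro _ rfl; exact h0.le)
        (le_Fm j ht' _ (le_shear ht hB) _ (hθ.upd2 n j s (range n \ s)))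
      rw [zero_add] at this
      rw [this, lev_singleton h0]
    have hother : ∀ s ⊆ range n, ∀ s' ⊆ range n, s' ≠ range n \ s →
        lev (co t) (Φ s s') (δ s s') =
          {if (s ∩ s').Nonempty then (D + 1) • e else u} := by
      intro s hs s' hs' hne
      by_cases hov : (s ∩ s').Nonempty
      · simp only [Φ, δ, if_pos hov]
        rw [Fac, map_add, map_add, sp_add, sp_add, lev_union, lev_union,
          lev_empty (hle s s').1 (by push_cast; linarith),
          lev_empty (hle s s').2.1 (by push_cast; linarith), map_mul, sp_mul, hXt, sp_Ov θ hs hov,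
          Set.singleton_add_singleton, add_zero, lev_singleton (by simp [co, e])]
        simp [hD]
      · simp only [Φ, δ, if_neg hov, add_zero]
        rw [Fac, map_add, map_add, map_mul _ (X t ^ _), Ov_zero θ hov, mul_zero, add_zero,
          map_mul _ _ (Fm n t j _), map_mul _ (PowG n j _), PowG_zero θ hs' hov hne, zero_mul,
          zero_mul, add_zero, hT1, lev_singleton hcu]
    have hsum : lev (co t) (sp (bind₁ θ (Fm n t (j + 1) W))) (Dg n (j + 1)) =
        ∑ s ∈ (range n).powerset, ∑ s' ∈ (range n).powerset, lev (co t) (Φ s s') (δ s s') := by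
      have h1 := fun s => lev_sum (h := co t) (Φ s) (δ s) (range n).powerset
        fun s' _ => (hle s s').2.2
      have h2 := (lev_sum (h := co t) (fun s => ∑ s' ∈ (range n).powerset, Φ s s')
        (fun s => ∑ s' ∈ (range n).powerset, δ s s') (range n).powerset
        fun s _ => (h1 s).1).2
      rw [sp_Fm, Dg]
      simp only [Nat.cast_sum]
      rw [h2]
      exact sum_congr rfl fun s _ => (h1 s).2
    have hRP : ∀ s ⊆ range n, ∀ q ∈ R s, ∃ b ∈ Submodule.span ℚ (Set.range (v' s)),
        q = tau s • v 1 + tau s • tau s • v 2 + D • e + b := by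
      intro s hs q hq
      obtain ⟨b, hb, rfl⟩ := mem_sing.1 hq
      exact ⟨_, (IH s hs).2 b hb, by abel⟩
    have hlow : ∀ s i, i < 3 → ∀ b ∈ Submodule.span ℚ (Set.range (v' s)), φ i b = 0 := by
      intro s i hi b hb
      refine span_vanish (φ i) (fun i' => ?_) hb
      simp only [v', map_add, map_smul, hd]
      rw [if_neg (by omega), if_neg (by omega)]; simp
    have hrel : ∀ s i, ∀ b ∈ Submodule.span ℚ (Set.range (v' s)),
        φ (2 * i + 4) b = tau s * φ (2 * i + 3) b := by
      intro s i b hb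
      have := span_vanish (φ (2 * i + 4) - tau s • φ (2 * i + 3)) (fun i' => by
        simp only [LinearMap.sub_apply, LinearMap.smul_apply, hd' s, smul_eq_mul]
        simp only [v', map_add, map_smul, hd]
        rw [if_neg (show 2 * i + 4 ≠ 2 * i' + 3 by omega)]
        by_cases h : i = i'
        · simp [h]
        · rw [if_neg (by omega), if_neg h]; simp) hb
      simp only [LinearMap.sub_apply, LinearMap.smul_apply, smul_eq_mul] at this
      linarith
    rw [hsum]
    constructor
    · have h1 : ∑ s ∈ (range n).powerset, ∑ s' ∈ (range n).powerset,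
          lev (co t) (Φ s s') (δ s s') = {∑ s ∈ (range n).powerset,
            ∑ s' ∈ (range n).powerset.erase (range n \ s),
              if (s ∩ s').Nonempty then (D + 1) • e else u} +
            ∑ s ∈ (range n).powerset, ({u} ∪ R s) := by
        rw [← sum_singleton', ← sum_add_distrib]
        refine sum_congr rfl fun s hs => ?_
        rw [← sum_erase_add _ _ (mem_powerset.2 (sdiff_subset (t := s))),
          hvalid s (mem_powerset.1 hs), ← sum_singleton']
        congr 1
        exact sum_congr rfl fun s' hs' => hother s (mem_powerset.1 hs) s'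
          (mem_powerset.1 (mem_of_mem_erase hs')) (ne_of_mem_erase hs')
      rw [h1]
      refine Hard.translate (hard_sum u R (φ 0).toAddMonoidHom (φ 1).toAddMonoidHom
        (φ 2).toAddMonoidHom _ tau (fun _ _ _ _ h => tau_inj h) ?_ ?_ ?_ ?_
        (by rw [card_powerset, card_range]) fun s hs =>
          (IH s (mem_powerset.1 hs)).1.translate _) _
      · intro s hs q hq
        obtain ⟨b, hb, rfl⟩ := hRP s (mem_powerset.1 hs) q hq
        simp [u, hd, he, hlow s 0 (by omega) b hb]
      · intro s hs q hq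
        obtain ⟨b, hb, rfl⟩ := hRP s (mem_powerset.1 hs) q hq
        simp [hd, he, hlow s 1 (by omega) b hb]
      · intro s hs q hq
        obtain ⟨b, hb, rfl⟩ := hRP s (mem_powerset.1 hs) q hq
        simp [hd, he, hlow s 2 (by omega) b hb, sq]
      · intro s hs s' hs' q1 h1 q2 h2 r1 h3 r2 h4 heq hne
        obtain ⟨b1, k1, rfl⟩ := hRP s (mem_powerset.1 hs) q1 h1
        obtain ⟨b2, k2, rfl⟩ := hRP s (mem_powerset.1 hs) q2 h2
        obtain ⟨b3, k3, rfl⟩ := hRP s' (mem_powerset.1 hs') r1 h3
        obtain ⟨b4, k4, rfl⟩ := hRP s' (mem_powerset.1 hs') r2 h4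
        by_contra hss
        apply hne
        have e1 : b1 - b2 = b3 - b4 := by simpa using heq
        have m1 := Submodule.sub_mem _ k1 k2
        have m2 := Submodule.sub_mem _ k3 k4
        rw [← e1] at m2
        have e2 : b1 - b2 = 0 := span_zero (φ := fun i => φ (2 * i + 3)) (hd' s) m1 fun i => by
          have f1 := hrel s i _ m1
          have f2 := hrel s' i _ m2
          have f3 : (tau s - tau s') * φ (2 * i + 3) (b1 - b2) = 0 := by linarith
          exact (mul_eq_zero.1 f3).resolve_left fun h => hss (tau_inj (by linarith))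
        rw [sub_eq_zero.1 e2]
    · have := shift_sum P e (fun s => ∑ s' ∈ (range n).powerset, lev (co t) (Φ s s') (δ s s'))
        (fun s => ∑ s' ∈ (range n).powerset, δ s s') (range n).powerset fun s hs =>
        shift_sum P e _ (δ s) (range n).powerset fun s' hs' x hx => by
          by_cases hne : s' = range n \ s
          · subst hne
            rw [hvalid s (mem_powerset.1 hs)] at hx
            have hδ : δ s (range n \ s) = D := by simp [δ, hD]
            rw [hδ]
            rcases hx with rfl | hx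
            · simpa [u] using hvP 0
            · obtain ⟨b, hb, rfl⟩ := hRP s (mem_powerset.1 hs) x hx
              convert P.add_mem (P.add_mem (P.smul_mem (tau s) (hvP 1))
                (P.smul_mem (tau s) (P.smul_mem (tau s) (hvP 2)))) (hspan s hb) using 1
              abel
          · rw [hother s (mem_powerset.1 hs) s' (mem_powerset.1 hs') hne] at hx
            rw [hx]
            by_cases hov : (s ∩ s').Nonempty
            · simp [δ, hov, hD]
            · simpa [δ, hov, u, hD] using hvP 0
      rw [Dg]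
      simpa only [Nat.cast_sum] using this

end Pool.Agent.MP_a2d820_lc.h8
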