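import Pool.Agent.MP_a2d820_lc.h8.Model
import Pool.Agent.MP_a2d820_lc.h8.Build

/-! The polynomials that separate consecutive levels, and their supports. -/

namespace Pool.Agent.MP_a2d820_lc.h8

open Pointwise MvPolynomial Finset
open scoped NNReal
open Pool.Agent.MP_a2d820_lc.h28

abbrev Pl : Type := MvPolynomial ℕ ℝ≥0

/-- production quantifiers on the variables `a, ..., a + m - 1` -/
def QL (a : ℕ) : ℕ → List (Qt × ℕ)
  | 0 => []
  | m + 1 => (Qt.prod, a + m) :: QL a m

/-- set the variables `a, ..., a + m - 1` to the indicator of `s` -/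
noncomputable def upd (θ : ℕ → Pl) (a m : ℕ) (s : Finset ℕ) : ℕ → Pl :=
  fun v => if a ≤ v ∧ v < a + m then (if v - a ∈ s then 1 else 0) else θ v

theorem block_append (Q Q' : List (Qt × ℕ)) (p : Pl) :
    block (Q ++ Q') p = block Q (block Q' p) := by
  induction Q with
  | nil => rfl
  | cons q Q ih => simp only [List.cons_append, block, ih]

theorem bind_QL (a m : ℕ) (p : Pl) : ∀ θ : ℕ → Pl,
    bind₁ θ (block (QL a m) p) = ∏ s ∈ (range m).powerset, bind₁ (upd θ a m s) p := by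
  induction m with
  | zero =>
    intro θ
    have : upd θ a 0 ∅ = θ := by
      funext v; simp only [upd]; rw [if_neg (by omega)]
    simp [QL, block, this]
  | succ m ih =>
    intro θ
    simp only [QL, block]
    rw [bind_prod, ih, ih, range_add_one, prod_powerset_insert notMem_range_self]
    congr 1
    · refine prod_congr rfl fun s hs => ?_
      congr 2
      funext v
      have hm : m ∉ s := fun h => notMem_range_self (mem_powerset.1 hs h)
      simp only [upd]
      by_cases h1 : v = a + m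
      · subst h1; simp [hm]
      · rw [Function.update_of_ne h1]
        by_cases h2 : a ≤ v ∧ v < a + m
        · rw [if_pos h2, if_pos (show a ≤ v ∧ v < a + (m + 1) by omega)]
        · rw [if_neg h2, if_neg (by omega)]
    · refine prod_congr rfl fun s _ => ?_
      congr 2
      funext v
      simp only [upd]
      by_cases h1 : v = a + m
      · subst h1; simp
      · rw [Function.update_of_ne h1]
        by_cases h2 : a ≤ v ∧ v < a + m
        · rw [if_pos h2, if_pos (show a ≤ v ∧ v < a + (m + 1) by omega)]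
          have : v - a ≠ m := by omega
          simp [this]
        · rw [if_neg h2, if_neg (by omega)]

/-- raising to the power written in binary on the dual-rail variables of level `l` -/
noncomputable def PowG (n l : ℕ) (p : Pl) : Pl :=
  ∏ b ∈ range n, (X (2 * n * l + b) * p ^ 2 ^ b + X (2 * n * l + n + b))

/-- the new values of the essential variables -/
noncomputable def shear (n l : ℕ) (W : ℕ → Pl) : ℕ → Pl :=
  fun i => W (2 * i + 3) * PowG n l (W (2 * i + 4))

/-- detector of assignments with both rails on -/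
noncomputable def Ov (n l : ℕ) : Pl := ∑ b ∈ range n, X (2 * n * l + b) * X (2 * n * l + n + b)

/-- degree in the guard variable -/
def Dg (n : ℕ) : ℕ → ℕ
  | 0 => 0
  | j + 1 => ∑ s ∈ (range n).powerset, ∑ s' ∈ (range n).powerset,
      (Dg n j + if (s ∩ s').Nonempty then 1 else 0)

/-- the factor under the quantifier block -/
noncomputable def Fac (n t j : ℕ) (W : ℕ → Pl) (p : Pl) : Pl :=
  W 0 * X t ^ Dg n j + PowG n j (W 1) * PowG n j (PowG n j (W 2)) * p +
    X t ^ (Dg n j + 1) * Ov n j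

/-- the separating polynomials -/
noncomputable def Fm (n t : ℕ) : ℕ → (ℕ → Pl) → Pl
  | 0, W => ∏ b ∈ range n, (1 + W 0 ^ 2 ^ b)
  | j + 1, W => block (QL (2 * n * j) n ++ QL (2 * n * j + n) n)
      (Fac n t j W (Fm n t j (shear n j W)))

/-- both blocks of an assignment -/
noncomputable def upd2 (θ : ℕ → Pl) (n j : ℕ) (s s' : Finset ℕ) : ℕ → Pl :=
  upd (upd θ (2 * n * j) n s) (2 * n * j + n) n s'

theorem sp_prod {ι : Type} (f : ι → Pl) (J : Finset ι) :
    sp (∏ c ∈ J, f c) = ∑ c ∈ J, sp (f c) := by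
  classical
  induction J using Finset.induction_on with
  | empty => simp [sp_one, Set.singleton_zero]
  | insert a J ha ih => rw [prod_insert ha, sum_insert ha, sp_mul, ih]

theorem sp_Fm (n t j : ℕ) (W θ : ℕ → Pl) : sp (bind₁ θ (Fm n t (j + 1) W)) =
    ∑ s ∈ (range n).powerset, ∑ s' ∈ (range n).powerset,
      sp (bind₁ (upd2 θ n j s s') (Fac n t j W (Fm n t j (shear n j W)))) := by
  rw [Fm, block_append, bind_QL, sp_prod]
  refine sum_congr rfl fun s _ => ?_
  rw [bind_QL, sp_prod]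
  rfl

theorem upd2_c (θ : ℕ → Pl) {n : ℕ} (j : ℕ) (s s' : Finset ℕ) {b : ℕ} (hb : b < n) :
    upd2 θ n j s s' (2 * n * j + b) = if b ∈ s then 1 else 0 := by
  simp only [upd2, upd]
  rw [if_neg (by omega), if_pos (by omega), Nat.add_sub_cancel_left]

theorem upd2_d (θ : ℕ → Pl) {n : ℕ} (j : ℕ) (s s' : Finset ℕ) {b : ℕ} (hb : b < n) :
    upd2 θ n j s s' (2 * n * j + n + b) = if b ∈ s' then 1 else 0 := by
  simp only [upd2, upd]
  rw [if_pos (by omega), Nat.add_sub_cancel_left]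

theorem upd2_hi (θ : ℕ → Pl) {n : ℕ} (j : ℕ) (s s' : Finset ℕ) {v : ℕ}
    (hv : 2 * n * (j + 1) ≤ v) : upd2 θ n j s s' v = θ v := by
  simp only [upd2, upd]
  rw [mul_add, mul_one] at hv
  rw [if_neg (by omega), if_neg (by omega)]

/-- substitutions that keep a variable or set it to 0 or 1 -/
def Good (θ : ℕ → Pl) : Prop := ∀ v, θ v = X v ∨ θ v = 0 ∨ θ v = 1

theorem Good.upd {θ : ℕ → Pl} (h : Good θ) (a m : ℕ) (s : Finset ℕ) : Good (upd θ a m s) := by
  intro v
  simp only [h8.upd]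
  split_ifs
  · exact Or.inr (Or.inr rfl)
  · exact Or.inr (Or.inl rfl)
  · exact h v

theorem Good.upd2 {θ : ℕ → Pl} (h : Good θ) (n j : ℕ) (s s' : Finset ℕ) :
    Good (upd2 θ n j s s') := (h.upd _ _ _).upd _ _ _

/-- the coordinate `t` -/
def co (t : ℕ) : (ℕ → ℚ) →+ ℚ := Pi.evalAddMonoidHom (fun _ => ℚ) t

/-- degree bound in `t` -/
def Le (t : ℕ) (p : Pl) (D : ℕ) : Prop := ∀ x ∈ sp p, co t x ≤ D

theorem Le.add {t : ℕ} {p q : Pl} {D : ℕ} (hp : Le t p D) (hq : Le t q D) : Le t (p + q) D := by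
  intro x hx
  rw [sp_add] at hx
  exact hx.elim (hp x) (hq x)

theorem Le.mul {t : ℕ} {p q : Pl} {D E : ℕ} (hp : Le t p D) (hq : Le t q E) :
    Le t (p * q) (D + E) := by
  intro x hx
  rw [sp_mul] at hx
  push_cast
  exact le_add hp hq x hx

theorem Le.mono {t : ℕ} {p : Pl} {D E : ℕ} (hp : Le t p D) (h : D ≤ E) : Le t p E :=
  fun x hx => (hp x hx).trans (by exact_mod_cast h)

theorem Le.zero (t D : ℕ) : Le t 0 D := by
  intro x hx; rw [sp_zero] at hx; exact hx.elim

theorem Le.one (t : ℕ) : Le t 1 0 := by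
  intro x hx; rw [sp_one] at hx; rw [hx]; simp

theorem Le.pow {t : ℕ} {p : Pl} {D : ℕ} (hp : Le t p D) (m : ℕ) : Le t (p ^ m) (m * D) := by
  induction m with
  | zero => simpa using Le.one t
  | succ m ih => rw [pow_succ, add_mul, one_mul]; exact ih.mul hp

theorem Le.prod {t : ℕ} {ι : Type} (f : ι → Pl) (J : Finset ι) (h : ∀ c ∈ J, Le t (f c) 0) :
    Le t (∏ c ∈ J, f c) 0 :=
  prod_induction f (fun p => Le t p 0) (fun _ _ hp hq => hp.mul hq) (Le.one t) h

theorem Le.sum {t : ℕ} {ι : Type} (f : ι → Pl) (J : Finset ι) (h : ∀ c ∈ J, Le t (f c) 0) :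
    Le t (∑ c ∈ J, f c) 0 :=
  sum_induction f (fun p => Le t p 0) (fun _ _ hp hq => hp.add hq) (Le.zero t 0) h

theorem Good.le_ne {θ : ℕ → Pl} (h : Good θ) {t v : ℕ} (hv : v ≠ t) : Le t (θ v) 0 := by
  rcases h v with e | e | e <;> rw [e]
  · intro x hx
    rw [sp_X] at hx
    rw [hx]
    simp [co, hv.symm]
  · exact Le.zero _ _
  · exact Le.one _

theorem Good.le_t {θ : ℕ → Pl} (h : Good θ) (t : ℕ) : Le t (θ t) 1 := by
  rcases h t with e | e | e <;> rw [e]
  · intro x hx
    rw [sp_X] at hx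
    rw [hx]
    simp [co]
  · exact Le.zero _ _
  · exact (Le.one _).mono (by omega)

theorem le_PowG {θ : ℕ → Pl} (h : Good θ) {n t j : ℕ} (ht : 2 * n * (j + 1) ≤ t) {p : Pl}
    (hp : Le t (bind₁ θ p) 0) : Le t (bind₁ θ (PowG n j p)) 0 := by
  rw [mul_add, mul_one] at ht
  simp only [PowG, map_prod, map_add, map_mul, map_pow, bind₁_X_right]
  refine Le.prod _ _ fun b hb => ?_
  have hb' := mem_range.1 hb
  have h1 := (h.le_ne (t := t) (v := 2 * n * j + b) (by omega)).mul (hp.pow (2 ^ b))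
  exact Le.add (by simpa using h1) (h.le_ne (by omega))

theorem le_Ov {θ : ℕ → Pl} (h : Good θ) {n t j : ℕ} (ht : 2 * n * (j + 1) ≤ t) :
    Le t (bind₁ θ (Ov n j)) 0 := by
  rw [mul_add, mul_one] at ht
  simp only [Ov, map_sum, map_mul, bind₁_X_right]
  refine Le.sum _ _ fun b hb => ?_
  have hb' := mem_range.1 hb
  exact (h.le_ne (t := t) (v := 2 * n * j + b) (by omega)).mul (h.le_ne (by omega))

theorem Ov_zero (θ : ℕ → Pl) {n j : ℕ} {s s' : Finset ℕ} (h : ¬ (s ∩ s').Nonempty) :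
    bind₁ (upd2 θ n j s s') (Ov n j) = 0 := by
  simp only [Ov, map_sum, map_mul, bind₁_X_right]
  refine sum_eq_zero fun b hb => ?_
  rw [upd2_c θ j s s' (mem_range.1 hb), upd2_d θ j s s' (mem_range.1 hb)]
  by_cases h1 : b ∈ s
  · have h2 : b ∉ s' := fun h2 => h ⟨b, mem_inter.2 ⟨h1, h2⟩⟩
    simp [h2]
  · simp [h1]

theorem sp_Ov (θ : ℕ → Pl) {n j : ℕ} {s s' : Finset ℕ} (hs : s ⊆ range n)
    (h : (s ∩ s').Nonempty) : sp (bind₁ (upd2 θ n j s s') (Ov n j)) = {0} := by
  have e : bind₁ (upd2 θ n j s s') (Ov n j) = C (((s ∩ s').card : ℕ) : ℝ≥0) := by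
    simp only [Ov, map_sum, map_mul, bind₁_X_right]
    rw [sum_congr rfl (g := fun b => if b ∈ s ∩ s' then 1 else 0) fun b hb => by
      rw [upd2_c θ j s s' (mem_range.1 hb), upd2_d θ j s s' (mem_range.1 hb)]
      by_cases h1 : b ∈ s <;> by_cases h2 : b ∈ s' <;> simp [h1, h2]]
    rw [sum_ite_mem, inter_eq_right.2 (inter_subset_left.trans hs)]
    simp
  rw [e, ← sp_one]
  apply sp_congr
  have hc : (((s ∩ s').card : ℕ) : ℝ≥0) ≠ 0 := by exact_mod_cast h.card_pos.ne'
  rw [← C_1, ← monomial_zero', support_monomial, support_monomial, if_neg hc, if_neg one_ne_zero]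

theorem le_Fac {θ : ℕ → Pl} (h : Good θ) {n t j : ℕ} (ht : 2 * n * (j + 1) ≤ t) {W : ℕ → Pl}
    {p : Pl} (hW : ∀ i θ, Good θ → Le t (bind₁ θ (W i)) 0) (s s' : Finset ℕ)
    (hp : Le t (bind₁ (upd2 θ n j s s') p) (Dg n j)) :
    Le t (bind₁ (upd2 θ n j s s') (W 0 * X t ^ Dg n j)) (Dg n j) ∧
    Le t (bind₁ (upd2 θ n j s s') (PowG n j (W 1) * PowG n j (PowG n j (W 2)) * p)) (Dg n j) ∧
    Le t (bind₁ (upd2 θ n j s s') (Fac n t j W p))
      (Dg n j + if (s ∩ s').Nonempty then 1 else 0) := by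
  have hg := h.upd2 n j s s'
  have h1 : Le t (bind₁ (upd2 θ n j s s') (W 0 * X t ^ Dg n j)) (Dg n j) := by
    simp only [map_mul, map_pow, bind₁_X_right]
    simpa using (hW 0 _ hg).mul ((hg.le_t t).pow (Dg n j))
  have h2 : Le t (bind₁ (upd2 θ n j s s') (PowG n j (W 1) * PowG n j (PowG n j (W 2)) * p))
      (Dg n j) := by
    simp only [map_mul]
    simpa using ((le_PowG hg ht (hW 1 _ hg)).mul (le_PowG hg ht (le_PowG hg ht (hW 2 _ hg)))).mul hp
  refine ⟨h1, h2, ?_⟩
  rw [Fac, map_add, map_add]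
  refine ((h1.add h2).mono (by omega)).add ?_
  rw [map_mul]
  split_ifs with hov
  · simp only [map_pow, bind₁_X_right]
    simpa using ((hg.le_t t).pow (Dg n j + 1)).mul (le_Ov hg ht)
  · rw [Ov_zero θ hov, mul_zero]
    exact Le.zero _ _

theorem le_shear {n t j : ℕ} (ht : 2 * n * (j + 1) ≤ t) {W : ℕ → Pl}
    (hW : ∀ i θ, Good θ → Le t (bind₁ θ (W i)) 0) :
    ∀ i θ, Good θ → Le t (bind₁ θ (shear n j W i)) 0 := by
  intro i θ h
  rw [shear, map_mul]
  exact (hW _ θ h).mul (le_PowG h ht (hW _ θ h))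

theorem le_Fm {n t : ℕ} : ∀ (j : ℕ) (_ : 2 * n * j ≤ t) (W : ℕ → Pl)
    (_ : ∀ i θ, Good θ → Le t (bind₁ θ (W i)) 0) (θ : ℕ → Pl) (_ : Good θ),
    Le t (bind₁ θ (Fm n t j W)) (Dg n j)
  | 0, _, W, hW, θ, h => by
    simp only [Fm, Dg, map_prod, map_add, map_one, map_pow]
    exact Le.prod _ _ fun b _ => (Le.one t).add (by simpa using (hW 0 θ h).pow (2 ^ b))
  | j + 1, ht, W, hW, θ, h => by
    intro x hx
    rw [sp_Fm] at hx
    have := (lev_sum (h := co t) _ (fun s => ∑ s' ∈ (range n).powerset,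
      ((Dg n j + if (s ∩ s').Nonempty then 1 else 0 : ℕ) : ℚ)) (range n).powerset
      fun s _ => (lev_sum (h := co t) _ _ (range n).powerset fun s' _ =>
        (le_Fac h ht hW s s' (le_Fm j (le_trans (by nlinarith) ht) _ (le_shear ht hW) _
          (h.upd2 n j s s'))).2.2).1).1 x hx
    rw [Dg, Nat.cast_sum]
    simpa only [Nat.cast_sum] using this

/-- the number with binary digits `s` -/
def tau (s : Finset ℕ) : ℚ := ∑ b ∈ s, 2 ^ b

theorem tau_inj {s s' : Finset ℕ} (h : tau s = tau s') : s = s' := by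
  apply Finset.geomSum_injective (n := 2) le_rfl
  simp only [tau] at h
  exact_mod_cast h

theorem sp_pow {p : Pl} {x : ℕ → ℚ} (hp : sp p = {x}) (m : ℕ) : sp (p ^ m) = {(m : ℚ) • x} := by
  induction m with
  | zero => simp [sp_one]
  | succ m ih =>
    rw [pow_succ, sp_mul, ih, hp, Set.singleton_add_singleton]
    push_cast
    rw [add_smul, one_smul]

theorem sp_PowG {θ : ℕ → Pl} {n j : ℕ} {s : Finset ℕ} (hs : s ⊆ range n)
    (hc : ∀ b < n, θ (2 * n * j + b) = if b ∈ s then 1 else 0)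
    (hd : ∀ b < n, θ (2 * n * j + n + b) = if b ∈ range n \ s then 1 else 0) {p : Pl}
    {x : ℕ → ℚ} (hp : sp (bind₁ θ p) = {x}) : sp (bind₁ θ (PowG n j p)) = {tau s • x} := by
  simp only [PowG, map_prod, map_add, map_mul, map_pow, bind₁_X_right]
  rw [sp_prod, sum_congr rfl (g := fun b => {if b ∈ s then (2 ^ b : ℚ) • x else 0}) fun b hb => by
    rw [hc b (mem_range.1 hb), hd b (mem_range.1 hb)]
    by_cases h1 : b ∈ s
    · simp only [h1, if_true, mem_sdiff, not_true, and_false, if_false, one_mul, add_zero]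
      rw [sp_pow hp]; push_cast; rfl
    · simp only [h1, if_false, mem_sdiff, hb, not_false_iff, and_self, if_true, zero_mul,
        zero_add, sp_one]]
  rw [sum_singleton', sum_ite_mem, inter_eq_right.2 hs, tau, sum_smul]

theorem PowG_zero (θ : ℕ → Pl) {n j : ℕ} {s s' : Finset ℕ} (hs' : s' ⊆ range n)
    (hov : ¬ (s ∩ s').Nonempty) (hne : s' ≠ range n \ s) (p : Pl) :
    bind₁ (upd2 θ n j s s') (PowG n j p) = 0 := by
  have : ∃ b ∈ range n, b ∉ s ∧ b ∉ s' := by
    by_contra hcon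
    push Not at hcon
    apply hne
    ext b
    rw [mem_sdiff]
    exact ⟨fun h => ⟨hs' h, fun h' => hov ⟨b, mem_inter.2 ⟨h', h⟩⟩⟩, fun h => hcon b h.1 h.2⟩
  obtain ⟨b, hb, h1, h2⟩ := this
  simp only [PowG, map_prod]
  refine prod_eq_zero hb ?_
  simp only [map_add, map_mul, bind₁_X_right]
  rw [upd2_c θ j s s' (mem_range.1 hb), upd2_d θ j s s' (mem_range.1 hb)]
  simp [h1, h2]

end Pool.Agent.MP_a2d820_lc.h8
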