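import Pool.Agent.MP_a2d820_lc.h8.Cl

/-! The lower bound: layered sets are not in the classes `Cl`. -/

namespace Pool.Agent.MP_a2d820_lc.h8

open Pointwise

variable {G : Type} [AddCommGroup G]

theorem mem_sing {m x : G} {A : Set G} : x ∈ {m} + A ↔ ∃ a ∈ A, m + a = x := by
  rw [Set.singleton_add]; rfl

/-- A set `F` with a top point `p`, second layer the union of the rigid family `Q`, and third layer
made of sums of two different members of the family. -/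
structure Lay {ι : Type} (J : Finset ι) (τ : ι → ℚ) (F : Set G) (p : G) (Q : ι → Set G)
    (w y z : G →+ ℚ) (y0 z0 : ℚ) : Prop where
  inj : ∀ c ∈ J, ∀ c' ∈ J, τ c = τ c' → c = c'
  hy : ∀ c ∈ J, ∀ q ∈ Q c, y q = y0 + τ c
  hz : ∀ c ∈ J, ∀ q ∈ Q c, z q = z0 + τ c ^ 2
  rigid : ∀ c ∈ J, ∀ c' ∈ J, ∀ q1 ∈ Q c, ∀ q2 ∈ Q c, ∀ r1 ∈ Q c', ∀ r2 ∈ Q c',
    q1 - q2 = r1 - r2 → q1 ≠ q2 → c = c'
  top : p ∈ F
  sub : ∀ c ∈ J, Q c ⊆ F
  hw : ∀ c ∈ J, ∀ q ∈ Q c, w q = w p - 1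
  cases : ∀ x ∈ F, x = p ∨ (∃ c ∈ J, x ∈ Q c) ∨
    (∃ c1 ∈ J, ∃ c2 ∈ J, c1 ≠ c2 ∧ ∃ q1 ∈ Q c1, ∃ q2 ∈ Q c2, x + p = q1 + q2) ∨ w x < w p - 2

/-- Hard sets. -/
def Hard (N : ℕ) : ℕ → Set G → Prop
  | 0, F => (N : ℕ∞) ≤ F.encard
  | (j + 1), F => ∃ (ι : Type) (J : Finset ι) (τ : ι → ℚ) (p : G) (Q : ι → Set G)
      (w y z : G →+ ℚ) (y0 z0 : ℚ), Lay J τ F p Q w y z y0 z0 ∧ N ≤ J.card ∧
      ∀ c ∈ J, Hard N j (Q c)

namespace Lay

variable {ι : Type} {J : Finset ι} {τ : ι → ℚ} {F : Set G} {p : G} {Q : ι → Set G}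
  {w y z : G →+ ℚ} {y0 z0 : ℚ}

/-- The second layer. -/
def U (J : Finset ι) (Q : ι → Set G) : Set G := {x | ∃ c ∈ J, x ∈ Q c}

theorem unique (h : Lay J τ F p Q w y z y0 z0) {c c' : ι} (hc : c ∈ J) (hc' : c' ∈ J) {x : G}
    (hx : x ∈ Q c) (hx' : x ∈ Q c') : c = c' := by
  have h1 := h.hy c hc x hx
  have h2 := h.hy c' hc' x hx'
  exact h.inj c hc c' hc' (by linarith)

theorem w_cases (h : Lay J τ F p Q w y z y0 z0) {x : G} (hx : x ∈ F) :
    x = p ∨ (x ∈ U J Q ∧ w x = w p - 1) ∨ w x ≤ w p - 2 := by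
  rcases h.cases x hx with h1 | ⟨c, hc, h1⟩ | ⟨c1, hc1, c2, hc2, -, q1, hq1, q2, hq2, h1⟩ | h1
  · exact Or.inl h1
  · exact Or.inr (Or.inl ⟨⟨c, hc, h1⟩, h.hw c hc x h1⟩)
  · have h2 := congrArg w h1
    simp only [map_add] at h2
    have h3 := h.hw c1 hc1 q1 hq1
    have h4 := h.hw c2 hc2 q2 hq2
    exact Or.inr (Or.inr (by linarith))
  · exact Or.inr (Or.inr h1.le)

theorem not_third (h : Lay J τ F p Q w y z y0 z0) {c : ι} (hc : c ∈ J) {x1 x2 x : G}
    (h1 : x1 ∈ Q c) (h2 : x2 ∈ Q c) (hx : x ∈ F) (he : x + p = x1 + x2) : False := by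
  have hwx : w x = w p - 2 := by
    have h3 := congrArg w he
    simp only [map_add] at h3
    linarith [h.hw c hc x1 h1, h.hw c hc x2 h2]
  rcases h.cases x hx with h3 | ⟨c', hc', h3⟩ | ⟨c1, hc1, c2, hc2, hne, q1, hq1, q2, hq2, h3⟩ | h3
  · rw [h3] at hwx; linarith
  · have := h.hw c' hc' x h3; linarith
  · rw [he] at h3
    have h4 := congrArg y h3
    have h5 := congrArg z h3
    simp only [map_add] at h4 h5
    rw [h.hy c hc x1 h1, h.hy c hc x2 h2, h.hy c1 hc1 q1 hq1, h.hy c2 hc2 q2 hq2] at h4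
    rw [h.hz c hc x1 h1, h.hz c hc x2 h2, h.hz c1 hc1 q1 hq1, h.hz c2 hc2 q2 hq2] at h5
    apply hne
    apply h.inj c1 hc1 c2 hc2
    have h6 : (τ c1 - τ c2) ^ 2 = 0 := by
      have h7 : τ c = (τ c1 + τ c2) / 2 := by linarith
      rw [h7] at h5
      nlinarith
    have := pow_eq_zero_iff (two_ne_zero) |>.1 h6
    linarith
  · linarith

theorem four (h : Lay J τ F p Q w y z y0 z0) {a1 a2 b1 b2 : G} (ha : a1 ≠ a2) (hb : b1 ≠ b2)
    {c11 c12 c21 c22 : ι} (h11 : c11 ∈ J) (h12 : c12 ∈ J) (h21 : c21 ∈ J) (h22 : c22 ∈ J)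
    (m11 : a1 + b1 ∈ Q c11) (m12 : a1 + b2 ∈ Q c12) (m21 : a2 + b1 ∈ Q c21)
    (m22 : a2 + b2 ∈ Q c22) : c11 = c22 := by
  have e1 := h.hy _ h11 _ m11
  have e2 := h.hy _ h12 _ m12
  have e3 := h.hy _ h21 _ m21
  have e4 := h.hy _ h22 _ m22
  have f1 := h.hz _ h11 _ m11
  have f2 := h.hz _ h12 _ m12
  have f3 := h.hz _ h21 _ m21
  have f4 := h.hz _ h22 _ m22
  simp only [map_add] at e1 e2 e3 e4 f1 f2 f3 f4
  have g1 : τ c22 = τ c12 + τ c21 - τ c11 := by linarith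
  have g2 : τ c11 ^ 2 + τ c22 ^ 2 = τ c12 ^ 2 + τ c21 ^ 2 := by linarith
  have g3 : (τ c11 - τ c12) * (τ c11 - τ c21) = 0 := by
    rw [g1] at g2
    nlinarith
  rcases mul_eq_zero.1 g3 with g4 | g4
  · have k1 : c11 = c12 := h.inj _ h11 _ h12 (by linarith)
    have k2 : c21 = c22 := h.inj _ h21 _ h22 (by linarith)
    subst k1 k2
    exact h.rigid _ h11 _ h21 _ m11 _ m12 _ m21 _ m22 (by abel) (by simpa using hb)
  · have k1 : c11 = c21 := h.inj _ h11 _ h21 (by linarith)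
    have k2 : c12 = c22 := h.inj _ h12 _ h22 (by linarith)
    subst k1 k2
    exact h.rigid _ h11 _ h12 _ m11 _ m21 _ m12 _ m22 (by abel) (by simpa using ha)

theorem confined (h : Lay J τ F p Q w y z y0 z0) {A B : Set G} (hA : A.Nontrivial)
    (hB : B.Nontrivial) (hU : A + B ⊆ U J Q) : ∃ c ∈ J, A + B ⊆ Q c := by
  obtain ⟨a, ha, a', ha', hne⟩ := hA
  obtain ⟨b, hb, b', hb', hne'⟩ := hB
  have key : ∀ a1 ∈ A, ∀ b1 ∈ B, ∀ a2 ∈ A, ∀ b2 ∈ B, a1 ≠ a2 → b1 ≠ b2 → ∀ c ∈ J,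
      a1 + b1 ∈ Q c → a2 + b2 ∈ Q c := by
    intro a1 h1 b1 h2 a2 h3 b2 h4 k1 k2 c hc hm
    obtain ⟨c12, h12, m12⟩ := hU (Set.add_mem_add h1 h4)
    obtain ⟨c21, h21, m21⟩ := hU (Set.add_mem_add h3 h2)
    obtain ⟨c22, h22, m22⟩ := hU (Set.add_mem_add h3 h4)
    rw [h.four k1 k2 hc h12 h21 h22 hm m12 m21 m22]
    exact m22
  obtain ⟨c, hc, hm⟩ := hU (Set.add_mem_add ha hb)
  have m22 : a' + b' ∈ Q c := key a ha b hb a' ha' b' hb' hne hne' c hc hm
  obtain ⟨c12, h12, m12⟩ := hU (Set.add_mem_add ha hb')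
  have m21 : a' + b ∈ Q c12 := key a ha b' hb' a' ha' b hb hne hne'.symm c12 h12 m12
  have hcc : c = c12 := by
    have e1 := h.hy _ hc _ hm
    have e2 := h.hy _ hc _ m22
    have e3 := h.hy _ h12 _ m12
    have e4 := h.hy _ h12 _ m21
    simp only [map_add] at e1 e2 e3 e4
    exact h.inj _ hc _ h12 (by linarith)
  subst hcc
  refine ⟨c, hc, ?_⟩
  rintro _ ⟨a1, h1, b1, h2, rfl⟩
  by_cases k1 : a = a1
  · by_cases k2 : b = b1
    · subst k1 k2; exact hm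
    · exact key a' ha' b hb a1 h1 b1 h2 (k1 ▸ hne.symm) k2 c hc m21
  · by_cases k2 : b = b1
    · exact key a ha b' hb' a1 h1 b1 h2 k1 (k2 ▸ hne'.symm) c hc m12
    · exact key a ha b hb a1 h1 b1 h2 k1 k2 c hc hm

theorem expose (h : Lay J τ F p Q w y z y0 z0) {j s : ℕ} {A : Set G} (hA : Cl j s A) (hs : 1 ≤ s)
    (hU : A ⊆ U J Q) {c : ι} (hc : c ∈ J) : Cl j s (A ∩ Q c) := by
  let l : G →+ ℚ := (AddMonoidHom.mulLeft (2 * τ c)).comp y - z
  have hl : ∀ c' ∈ J, ∀ q ∈ Q c', l q = 2 * τ c * y0 - z0 + τ c ^ 2 - (τ c - τ c') ^ 2 := by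
    intro c' hc' q hq
    simp only [l, AddMonoidHom.sub_apply, AddMonoidHom.comp_apply, AddMonoidHom.coe_mulLeft,
      h.hy c' hc' q hq, h.hz c' hc' q hq]
    ring
  have h1 := hA.level l hs (v := 2 * τ c * y0 - z0 + τ c ^ 2) (by
    intro x hx
    obtain ⟨c', hc', hq⟩ := hU hx
    rw [hl c' hc' x hq]
    nlinarith [sq_nonneg (τ c - τ c')])
  convert h1 using 1
  ext x
  constructor
  · rintro ⟨hx, hq⟩
    refine ⟨hx, ?_⟩
    rw [hl c hc x hq]; ring
  · rintro ⟨hx, he⟩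
    obtain ⟨c', hc', hq⟩ := hU hx
    rw [hl c' hc' x hq] at he
    have h2 : (τ c - τ c') ^ 2 = 0 := by linarith
    have h3 := pow_eq_zero_iff (two_ne_zero) |>.1 h2
    have h4 : c = c' := h.inj _ hc _ hc' (by linarith)
    exact ⟨hx, h4 ▸ hq⟩

/-- The two-term lemma. -/
theorem two_term (h : Lay J τ F p Q w y z y0 z0) {c : ι} (hc : c ∈ J) {B C : Set G} {m : G}
    (hp : p ∈ {m} + (B + C)) (hF : {m} + (B + C) ⊆ F) :
    (∃ m', p ∈ {m'} + B ∧ {m'} + B ⊆ F ∧ ({m} + (B + C)) ∩ Q c ⊆ {m'} + B) ∨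
    (∃ m', p ∈ {m'} + C ∧ {m'} + C ⊆ F ∧ ({m} + (B + C)) ∩ Q c ⊆ {m'} + C) := by
  obtain ⟨_, ⟨b0, hb0, c0, hc0, rfl⟩, hp0⟩ := mem_sing.1 hp
  simp only at hp0
  have hmem : ∀ b ∈ B, ∀ c' ∈ C, m + (b + c') ∈ F := fun b hb c' hc' =>
    hF (Set.add_mem_add rfl (Set.add_mem_add hb hc'))
  have hB : {m + c0} + B ⊆ F := by
    rintro _ ⟨_, rfl, b, hb, rfl⟩
    have := hmem b hb c0 hc0
    simpa [add_assoc, add_comm, add_left_comm] using this
  have hC : {m + b0} + C ⊆ F := by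
    rintro _ ⟨_, rfl, b, hb, rfl⟩
    have := hmem b0 hb0 b hb
    simpa [add_assoc, add_comm, add_left_comm] using this
  have split : ∀ b ∈ B, ∀ c' ∈ C, m + (b + c') ∈ Q c → c' = c0 ∨ b = b0 := by
    intro b hb c' hc' hq
    have e0 := h.hw c hc _ hq
    have e1 := h.w_cases (hmem b hb c0 hc0)
    have e2 := h.w_cases (hmem b0 hb0 c' hc')
    rw [← hp0] at e0 e1 e2
    simp only [map_add] at e0 e1 e2
    rcases e1 with e1 | e1 | e1
    · right; simpa using e1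
    · rcases e2 with e2 | e2 | e2
      · left; simpa using e2
      · linarith [e1.2, e2.2]
      · linarith [e1.2]
    · rcases e2 with e2 | e2 | e2
      · left; simpa using e2
      · linarith [e2.2]
      · linarith
  by_cases hex : ∃ b ∈ B, m + (b + c0) ∈ Q c
  · left
    refine ⟨m + c0, ⟨_, rfl, b0, hb0, by simp only [← hp0]; abel⟩, hB, ?_⟩
    rintro x ⟨hx, hq⟩
    obtain ⟨_, ⟨b, hb, c', hc', rfl⟩, rfl⟩ := mem_sing.1 hx
    simp only at hq ⊢
    rcases split b hb c' hc' hq with e | e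
    · exact ⟨_, rfl, b, hb, by simp only [e]; abel⟩
    · exfalso
      obtain ⟨b1, hb1, hq1⟩ := hex
      refine h.not_third hc hq1 hq (hmem b1 hb1 c' hc') ?_
      rw [← hp0, e]; abel
  · right
    refine ⟨m + b0, ⟨_, rfl, c0, hc0, by simp only [← hp0]; abel⟩, hC, ?_⟩
    rintro x ⟨hx, hq⟩
    obtain ⟨_, ⟨b, hb, c', hc', rfl⟩, rfl⟩ := mem_sing.1 hx
    simp only at hq ⊢
    rcases split b hb c' hc' hq with e | e
    · exact absurd ⟨b, hb, e ▸ hq⟩ hex
    · exact ⟨_, rfl, c', hc', by simp only [e]; abel⟩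

theorem wide_term (h : Lay J τ F p Q w y z y0 z0) {c : ι} (hc : c ∈ J) {K : Set G → Prop}
    (h0 : K 0) (M : List (Set G)) (hM : ∀ D ∈ M, K D) : ∀ m, p ∈ {m} + M.sum →
    {m} + M.sum ⊆ F → ∃ D m', K D ∧ p ∈ {m'} + D ∧ {m'} + D ⊆ F ∧
      ({m} + M.sum) ∩ Q c ⊆ {m'} + D := by
  induction M with
  | nil => exact fun m hp hF => ⟨0, m, h0, hp, hF, Set.inter_subset_left⟩
  | cons D M ih =>
    intro m hp hF
    rw [List.sum_cons] at hp hF ⊢
    rcases h.two_term hc hp hF with ⟨m', h1, h2, h3⟩ | ⟨m', h1, h2, h3⟩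
    · exact ⟨D, m', hM D (by simp), h1, h2, h3⟩
    · obtain ⟨D', m'', k1, k2, k3, k4⟩ := ih (fun D hD => hM D (by simp [hD])) m' h1 h2
      exact ⟨D', m'', k1, k2, k3, fun x hx => k4 ⟨h3 hx, hx.2⟩⟩

theorem top_unique (h : Lay J τ F p Q w y z y0 z0) {A : Set G} {m m' : G} (hp : p ∈ {m} + A)
    (hF : {m} + A ⊆ F) (hp' : p ∈ {m'} + A) (hF' : {m'} + A ⊆ F) : m = m' := by
  obtain ⟨_, rfl, a, ha, e⟩ := hp
  obtain ⟨_, rfl, a', ha', e'⟩ := hp'
  simp only at e e'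
  have e1 := h.w_cases (hF (Set.add_mem_add rfl ha'))
  have e2 := h.w_cases (hF' (Set.add_mem_add rfl ha))
  have f1 := congrArg w e
  have f2 := congrArg w e'
  simp only [map_add] at e1 e2 f1 f2
  rcases e1 with e1 | e1 | e1
  · rw [← e'] at e1; simpa using e1
  · rcases e2 with e2 | e2 | e2
    · rw [← e] at e2; simpa using e2.symm
    · linarith [e1.2, e2.2]
    · linarith [e1.2]
  · rcases e2 with e2 | e2 | e2
    · rw [← e] at e2; simpa using e2.symm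
    · linarith [e2.2]
    · linarith

/-- Covering the part of the second layer reached from the top. -/
theorem cover_top (h : Lay J τ F p Q w y z y0 z0) {c : ι} (hc : c ∈ J)
    (K : ℕ → Set G → Prop) (Kmono : ∀ s t A, K s A → s ≤ t → K t A)
    (Kunion : ∀ s t A B, K s A → K t B → K (s + t + 1) (A ∪ B)) (Kempty : K 1 ∅) {γ : ℕ}
    (hγ : 1 ≤ γ) {Lf : Set G → Prop} {L0 : List (Set G)}
    (hleaf : ∀ A, Lf A → ∀ m, p ∈ {m} + A → {m} + A ⊆ F →
      ∃ Z, K γ Z ∧ Z ⊆ Q c ∧ ({m} + A) ∩ Q c ⊆ Z)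
    (hside : ∀ B ∈ L0, ∀ m, {m} + B ⊆ F → p ∉ {m} + B →
      ∃ Z, K γ Z ∧ Z ⊆ Q c ∧ ({m} + B) ∩ Q c ⊆ Z)
    {L : List (Set G)} (hL : Prog Lf L) (hsub : L ⊆ L0) :
    ∃ Z, K (1 + L.length * (γ + 1)) Z ∧ Z ⊆ Q c ∧
      ∀ A ∈ L, ∀ m, p ∈ {m} + A → {m} + A ⊆ F → ({m} + A) ∩ Q c ⊆ Z := by
  have step : ∀ (A : Set G) (L : List (Set G)) (Z : Set G), K (1 + L.length * (γ + 1)) Z →
      Z ⊆ Q c → (∀ A ∈ L, ∀ m, p ∈ {m} + A → {m} + A ⊆ F → ({m} + A) ∩ Q c ⊆ Z) →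
      (∀ m, p ∈ {m} + A → {m} + A ⊆ F → ∃ P, K γ P ∧ P ⊆ Q c ∧ ({m} + A) ∩ Q c ⊆ Z ∪ P) →
      ∃ Z', K (1 + (A :: L).length * (γ + 1)) Z' ∧ Z' ⊆ Q c ∧
        ∀ A' ∈ A :: L, ∀ m, p ∈ {m} + A' → {m} + A' ⊆ F → ({m} + A') ∩ Q c ⊆ Z' := by
    intro A L Z hK hZ hcov hA
    have : ∃ P, K γ P ∧ P ⊆ Q c ∧ ∀ m, p ∈ {m} + A → {m} + A ⊆ F → ({m} + A) ∩ Q c ⊆ Z ∪ P := by
      by_cases hex : ∃ m, p ∈ {m} + A ∧ {m} + A ⊆ F
      · obtain ⟨m, h1, h2⟩ := hex
        obtain ⟨P, k1, k2, k3⟩ := hA m h1 h2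
        refine ⟨P, k1, k2, fun m' h1' h2' => ?_⟩
        rw [h.top_unique h1' h2' h1 h2]
        exact k3
      · exact ⟨∅, Kmono _ _ _ Kempty hγ, Set.empty_subset _,
          fun m h1 h2 => absurd ⟨m, h1, h2⟩ hex⟩
    obtain ⟨P, k1, k2, k3⟩ := this
    refine ⟨Z ∪ P, Kmono _ _ _ (Kunion _ _ _ _ hK k1) ?_, Set.union_subset hZ k2, ?_⟩
    · simp only [List.length_cons]; nlinarith
    · intro A' hA' m h1 h2
      rcases List.mem_cons.1 hA' with rfl | hA'
      · exact k3 m h1 h2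
      · exact (hcov A' hA' m h1 h2).trans Set.subset_union_left
  induction hL with
  | nil => exact ⟨∅, by simpa using Kempty, Set.empty_subset _, by simp⟩
  | @leaf A L hA _ ih =>
    obtain ⟨Z, k1, k2, k3⟩ := ih (fun x hx => hsub (List.mem_cons_of_mem _ hx))
    refine step A L Z k1 k2 k3 fun m h1 h2 => ?_
    obtain ⟨P, l1, l2, l3⟩ := hleaf A hA m h1 h2
    exact ⟨P, l1, l2, l3.trans Set.subset_union_right⟩
  | @union A B L hA hB _ ih =>
    have hsub' : L ⊆ L0 := fun x hx => hsub (List.mem_cons_of_mem _ hx)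
    obtain ⟨Z, k1, k2, k3⟩ := ih hsub'
    refine step _ L Z k1 k2 k3 fun m h1 h2 => ?_
    rw [Set.add_union] at h1 h2 ⊢
    have h2A := Set.subset_union_left.trans h2
    have h2B := Set.subset_union_right.trans h2
    rw [Set.union_inter_distrib_right]
    by_cases hpA : p ∈ {m} + A
    · by_cases hpB : p ∈ {m} + B
      · exact ⟨∅, Kmono _ _ _ Kempty hγ, Set.empty_subset _, Set.union_subset
          ((k3 A hA m hpA h2A).trans Set.subset_union_left)
          ((k3 B hB m hpB h2B).trans Set.subset_union_left)⟩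
      · obtain ⟨P, l1, l2, l3⟩ := hside B (hsub' hB) m h2B hpB
        exact ⟨P, l1, l2, Set.union_subset_union (k3 A hA m hpA h2A) l3⟩
    · have hpB : p ∈ {m} + B := h1.resolve_left hpA
      obtain ⟨P, l1, l2, l3⟩ := hside A (hsub' hA) m h2A hpA
      exact ⟨P, l1, l2, Set.union_subset (l3.trans Set.subset_union_right)
        ((k3 B hB m hpB h2B).trans Set.subset_union_left)⟩
  | @add A B L hA hB _ ih =>
    obtain ⟨Z, k1, k2, k3⟩ := ih (fun x hx => hsub (List.mem_cons_of_mem _ hx))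
    refine step _ L Z k1 k2 k3 fun m h1 h2 => ?_
    refine ⟨∅, Kmono _ _ _ Kempty hγ, Set.empty_subset _, ?_⟩
    rw [Set.union_empty]
    rcases h.two_term hc h1 h2 with ⟨m', l1, l2, l3⟩ | ⟨m', l1, l2, l3⟩
    · exact fun x hx => k3 A hA m' l1 l2 ⟨l3 hx, hx.2⟩
    · exact fun x hx => k3 B hB m' l1 l2 ⟨l3 hx, hx.2⟩

theorem below (h : Lay J τ F p Q w y z y0 z0) {A : Set G} (hF : A ⊆ F) (hp : p ∉ A) :
    ∀ x ∈ A, w x ≤ w p - 1 := by
  intro x hx
  rcases h.w_cases (hF hx) with e | e | e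
  · exact absurd (e ▸ hx) hp
  · exact e.2.le
  · linarith

theorem level_sub (h : Lay J τ F p Q w y z y0 z0) {A : Set G} (hF : A ⊆ F) :
    {x | x ∈ A ∧ w x = w p - 1} ⊆ U J Q := by
  rintro x ⟨hx, he⟩
  rcases h.w_cases (hF hx) with e | e | e
  · rw [e] at he; linarith
  · exact e.1
  · linarith

/-- Lemma B. -/
theorem cover_inner (h : Lay J τ F p Q w y z y0 z0) {c : ι} (hc : c ∈ J) {s : ℕ} (hs : 1 ≤ s) :
    ∀ (j : ℕ) (D : Set G), Cl j s D → ∀ m, p ∈ {m} + D → {m} + D ⊆ F →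
      ∃ Z, Cl j (1 + s * (s + 3)) Z ∧ Z ⊆ Q c ∧ ({m} + D) ∩ Q c ⊆ Z
  | 0, D, hD, m, _, _ => by
    refine ⟨({m} + D) ∩ Q c, ?_, Set.inter_subset_right, le_rfl⟩
    have h1 : ({m} + D).encard ≤ ((s + 2 : ℕ) : ℕ∞) := Cl.translate (j := 0) m hD
    refine le_trans (Set.encard_le_encard Set.inter_subset_left) (h1.trans ?_)
    exact_mod_cast (by nlinarith : s + 2 ≤ 1 + s * (s + 3))
  | j + 1, D, hD, m, hp, hF => by
    obtain ⟨L, hL, hl, hm⟩ := hD
    have hβ : s + 2 ≤ 1 + s * (s + 3) := by nlinarith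
    obtain ⟨Z, k1, k2, k3⟩ := h.cover_top hc (fun t A => Over (Cl j (1 + s * (s + 3))) t A)
      (fun _ _ _ hA ht => hA.mono (fun _ h => h) ht) (fun _ _ _ _ hA hB => hA.union hB)
      (Over.single (Cl.of_subsingleton Set.subsingleton_empty (by omega))) (γ := s + 2) (by omega)
      (Lf := Wide (Cl j s)) (L0 := L)
      (by
        rintro A ⟨M, hM, rfl⟩ m h1 h2
        obtain ⟨D', m', l1, l2, l3, l4⟩ := h.wide_term hc
          (Cl.of_subsingleton (j := j) Set.subsingleton_singleton hs) M hM m h1 h2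
        obtain ⟨Z, n1, n2, n3⟩ := cover_inner h hc hs j D' l1 m' l2 l3
        exact ⟨Z, (Over.single n1).mono (fun _ h => h) (by omega), n2,
          fun x hx => n3 ⟨l4 hx, hx.2⟩⟩)
      (by
        intro B hB m h1 h2
        have l1 : Cl (j + 1) s B := ⟨L, hL, hl, hB⟩
        have l2 := (l1.translate m).level w (by omega) (h.below h1 h2)
        have l3 := h.expose l2 (by omega) (h.level_sub h1) hc
        exact ⟨_, Over.mono (fun _ hA => Cl.mono hA hβ) le_rfl l3, Set.inter_subset_right,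
          fun x hx => ⟨⟨hx.1, h.hw c hc x hx.2⟩, hx.2⟩⟩)
      hL (fun _ hx => hx)
    refine ⟨Z, Over.mono (fun _ h => h) ?_ k1, k2, k3 D hm m hp hF⟩
    have : L.length * (s + 2 + 1) ≤ s * (s + 3) := Nat.mul_le_mul_right _ hl
    omega

end Lay

theorem wide_split {K : Set G → Prop} (h0 : K 0) (M : List (Set G)) (hM : ∀ D ∈ M, K D)
    (hne : M.sum.Nonempty) : (∃ X Y : Set G, X.Nontrivial ∧ Y.Nontrivial ∧ M.sum = X + Y) ∨
      ∃ m D, K D ∧ M.sum = {m} + D := by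
  induction M with
  | nil => exact Or.inr ⟨0, 0, h0, by simp [← Set.singleton_zero]⟩
  | cons D M ih =>
    rw [List.sum_cons] at hne ⊢
    have hD : D.Nonempty := hne.of_add_left
    have hR : M.sum.Nonempty := hne.of_add_right
    rcases Set.subsingleton_or_nontrivial D with h1 | h1
    · obtain ⟨d, rfl⟩ := (Set.exists_eq_singleton_iff_nonempty_subsingleton).2 ⟨hD, h1⟩
      rcases ih (fun D hD => hM D (by simp [hD])) hR with ⟨X, Y, k1, k2, k3⟩ | ⟨m, D', k1, k2⟩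
      · refine Or.inl ⟨{d} + X, Y, ?_, k2, by rw [k3, add_assoc]⟩
        rw [Set.singleton_add]
        exact k1.image (add_right_injective d)
      · exact Or.inr ⟨d + m, D', k1, by rw [k2, ← add_assoc, Set.singleton_add_singleton]⟩
    · rcases Set.subsingleton_or_nontrivial M.sum with h2 | h2
      · obtain ⟨d, hd⟩ := (Set.exists_eq_singleton_iff_nonempty_subsingleton).2 ⟨hR, h2⟩
        exact Or.inr ⟨d, D, hM D (by simp), by rw [hd, add_comm]⟩
      · exact Or.inl ⟨D, M.sum, h1, h2, rfl⟩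

namespace Lay

variable {ι : Type} {J : Finset ι} {τ : ι → ℚ} {F : Set G} {p : G} {Q : ι → Set G}
  {w y z : G →+ ℚ} {y0 z0 : ℚ}

/-- Lemma A. -/
theorem cover_side (h : Lay J τ F p Q w y z y0 z0) {c : ι} (hc : c ∈ J) {j s : ℕ} (hs : 1 ≤ s)
    {L : List (Set G)} (hL : Prog (Wide (Cl j s)) L)
    (hgood : ∀ A ∈ L, A.Nontrivial → ∀ m, ¬ {m} + A ⊆ Q c) :
    ∃ Z, Cl j (1 + L.length * (s + 3)) Z ∧ Z ⊆ Q c ∧
      ∀ A ∈ L, A.Nontrivial → ∀ m, {m} + A ⊆ U J Q → ({m} + A) ∩ Q c ⊆ Z := by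
  have noreal : ∀ (A X Y : Set G) (m : G), (∀ m, ¬ {m} + A ⊆ Q c) → X.Nontrivial → Y.Nontrivial →
      X + Y ⊆ U J Q → {m} + A ⊆ X + Y → (({m} + A) ∩ Q c).Nonempty → False := by
    intro A X Y m hA hX hY hU hsub ⟨x, hx1, hx2⟩
    obtain ⟨c', hc', k⟩ := h.confined hX hY hU
    have := h.unique hc' hc (k (hsub hx1)) hx2
    subst this
    exact hA m (hsub.trans k)
  have step : ∀ (A : Set G) (L : List (Set G)) (Z : Set G), Cl j (1 + L.length * (s + 3)) Z →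
      Z ⊆ Q c → (∀ A ∈ L, A.Nontrivial → ∀ m, {m} + A ⊆ U J Q → ({m} + A) ∩ Q c ⊆ Z) →
      (A.Nontrivial → ∀ m, ¬ {m} + A ⊆ Q c) →
      (A.Nontrivial → ∀ m, {m} + A ⊆ U J Q → (({m} + A) ∩ Q c).Nonempty →
        ∃ P, Cl j (s + 2) P ∧ P ⊆ Q c ∧ ({m} + A) ∩ Q c ⊆ Z ∪ P) →
      ∃ Z', Cl j (1 + (A :: L).length * (s + 3)) Z' ∧ Z' ⊆ Q c ∧
        ∀ A' ∈ A :: L, A'.Nontrivial → ∀ m, {m} + A' ⊆ U J Q → ({m} + A') ∩ Q c ⊆ Z' := by
    intro A L Z hK hZ hcov hg hA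
    have : ∃ P, Cl j (s + 2) P ∧ P ⊆ Q c ∧ (A.Nontrivial → ∀ m, {m} + A ⊆ U J Q →
        ({m} + A) ∩ Q c ⊆ Z ∪ P) := by
      by_cases hex : A.Nontrivial ∧ ∃ m, {m} + A ⊆ U J Q ∧ (({m} + A) ∩ Q c).Nonempty
      · obtain ⟨hn, m, h1, h2⟩ := hex
        obtain ⟨P, k1, k2, k3⟩ := hA hn m h1 h2
        refine ⟨P, k1, k2, fun _ m' h1' => ?_⟩
        by_cases hmm : m' = m
        · rw [hmm]; exact k3
        · exfalso
          refine noreal A {m', m} A m (hg hn) (Set.nontrivial_pair hmm) hn ?_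
            (Set.add_subset_add_right (by simp)) h2
          rw [Set.insert_eq, Set.union_add]
          exact Set.union_subset h1' h1
      · refine ⟨∅, Cl.of_subsingleton Set.subsingleton_empty (by omega), Set.empty_subset _,
          fun hn m h1 x hx => absurd ⟨hn, m, h1, x, hx⟩ hex⟩
    obtain ⟨P, k1, k2, k3⟩ := this
    refine ⟨Z ∪ P, (hK.union k1).mono ?_, Set.union_subset hZ k2, ?_⟩
    · simp only [List.length_cons]; nlinarith
    · intro A' hA' hn m h1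
      rcases List.mem_cons.1 hA' with rfl | hA'
      · exact k3 hn m h1
      · exact (hcov A' hA' hn m h1).trans Set.subset_union_left
  induction hL with
  | nil => exact ⟨∅, Cl.of_subsingleton Set.subsingleton_empty (by omega), Set.empty_subset _,
      by simp⟩
  | @leaf A L hA _ ih =>
    obtain ⟨Z, k1, k2, k3⟩ := ih (fun x hx => hgood x (List.mem_cons_of_mem _ hx))
    refine step A L Z k1 k2 k3 (hgood A (by simp)) fun hn m h1 h2 => ?_
    obtain ⟨M, hM, rfl⟩ := hA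
    rcases wide_split (Cl.of_subsingleton (j := j) Set.subsingleton_singleton hs) M hM
      hn.nonempty with ⟨X, Y, l1, l2, l3⟩ | ⟨m', D, l1, l2⟩
    · exfalso
      refine noreal M.sum ({m} + X) Y m (hgood _ (by simp) hn) ?_ l2 ?_ ?_ h2
      · rw [Set.singleton_add]
        exact l1.image (add_right_injective m)
      · rw [add_assoc, ← l3]; exact h1
      · rw [add_assoc, ← l3]
    · rw [l2, ← add_assoc, Set.singleton_add_singleton] at h1 ⊢
      exact ⟨_, h.expose (l1.translate _) (by omega) h1 hc, Set.inter_subset_right,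
        Set.subset_union_right⟩
  | @union A B L hA hB _ ih =>
    obtain ⟨Z, k1, k2, k3⟩ := ih (fun x hx => hgood x (List.mem_cons_of_mem _ hx))
    refine step _ L Z k1 k2 k3 (hgood _ (by simp)) fun hn m h1 _ => ?_
    have one : ∀ A ∈ L, {m} + A ⊆ U J Q →
        ∃ P, Cl j 1 P ∧ P ⊆ Q c ∧ ({m} + A) ∩ Q c ⊆ Z ∪ P := by
      intro A hA h1
      rcases Set.subsingleton_or_nontrivial A with h2 | h2
      · refine ⟨_, Cl.of_subsingleton ?_ le_rfl, Set.inter_subset_right, Set.subset_union_right⟩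
        rw [Set.singleton_add]
        exact (h2.image _).anti Set.inter_subset_left
      · exact ⟨∅, Cl.of_subsingleton Set.subsingleton_empty le_rfl, Set.empty_subset _,
          (k3 A hA h2 m h1).trans Set.subset_union_left⟩
    rw [Set.add_union] at h1 ⊢
    obtain ⟨P, l1, l2, l3⟩ := one A hA (Set.subset_union_left.trans h1)
    obtain ⟨P', n1, n2, n3⟩ := one B hB (Set.subset_union_right.trans h1)
    refine ⟨P ∪ P', (l1.union n1).mono (by omega), Set.union_subset l2 n2, ?_⟩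
    rw [Set.union_inter_distrib_right]
    exact Set.union_subset (l3.trans (Set.union_subset_union_right _ Set.subset_union_left))
      (n3.trans (Set.union_subset_union_right _ Set.subset_union_right))
  | @add A B L hA hB _ ih =>
    obtain ⟨Z, k1, k2, k3⟩ := ih (fun x hx => hgood x (List.mem_cons_of_mem _ hx))
    refine step _ L Z k1 k2 k3 (hgood _ (by simp)) fun hn m h1 h2 => ?_
    refine ⟨∅, Cl.of_subsingleton Set.subsingleton_empty (by omega), Set.empty_subset _, ?_⟩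
    rw [Set.union_empty]
    have one : ∀ A B : Set G, B ∈ L → A.Subsingleton → (A + B).Nontrivial →
        {m} + (A + B) ⊆ U J Q → ({m} + (A + B)) ∩ Q c ⊆ Z := by
      intro A B hB hA hn h1
      obtain ⟨a, rfl⟩ := (Set.exists_eq_singleton_iff_nonempty_subsingleton).2
        ⟨hn.nonempty.of_add_left, hA⟩
      rw [← add_assoc, Set.singleton_add_singleton] at h1 ⊢
      rw [Set.singleton_add] at hn
      exact k3 B hB (Set.nontrivial_of_image _ _ hn) _ h1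
    rcases Set.subsingleton_or_nontrivial A with h3 | h3
    · exact one A B hB h3 hn h1
    · rcases Set.subsingleton_or_nontrivial B with h4 | h4
      · rw [add_comm A B] at hn h1 ⊢
        exact one B A hA h4 hn h1
      · exfalso
        refine noreal (A + B) ({m} + A) B m (hgood _ (by simp) hn) ?_ h4 ?_ ?_ h2
        · rw [Set.singleton_add]
          exact h3.image (add_right_injective m)
        · rw [add_assoc]; exact h1
        · rw [add_assoc]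

theorem exists_good (h : Lay J τ F p Q w y z y0 z0) (L : List (Set G)) (hL : L.length < J.card) :
    ∃ c ∈ J, ∀ A ∈ L, A.Nontrivial → ∀ m, ¬ {m} + A ⊆ Q c := by
  classical
  by_contra hcon
  push Not at hcon
  choose! f hf hn m hm using hcon
  have h1 : J.card ≤ L.toFinset.card := by
    refine Finset.card_le_card_of_injOn f (fun c hc => by simpa using hf c hc) ?_
    intro c hc c' hc' he
    obtain ⟨a, ha, a', ha', hne⟩ := hn c hc
    refine h.rigid c hc c' hc' (m c + a) (hm c hc (Set.add_mem_add rfl ha)) (m c + a')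
      (hm c hc (Set.add_mem_add rfl ha')) (m c' + a) (hm c' hc' (Set.add_mem_add rfl (he ▸ ha)))
      (m c' + a') (hm c' hc' (Set.add_mem_add rfl (he ▸ ha'))) (by abel) (by simpa using hne)
  have h2 := L.toFinset_card_le
  omega

theorem descend (h : Lay J τ F p Q w y z y0 z0) {j s : ℕ} (hs : 1 ≤ s) (hJ : s < J.card)
    (hF : Cl (j + 1) s F) : ∃ c ∈ J, Cl j ((s + 2) ^ 3 - 2) (Q c) := by
  obtain ⟨L, hL, hl, hm⟩ := hF
  obtain ⟨c, hc, hgood⟩ := h.exists_good (L.map (face w)) (by simpa using hl.trans_lt hJ)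
  obtain ⟨ZA, a1, a2, a3⟩ := h.cover_side hc hs
    (hL.face w fun _ hA => hA.face w fun _ hA => hA.face w) hgood
  have a1' : Cl j (1 + s * (s + 3)) ZA := a1.mono (by
    have : (L.map (face w)).length * (s + 3) ≤ s * (s + 3) :=
      Nat.mul_le_mul_right _ (by simpa using hl)
    omega)
  obtain ⟨Z, k1, k2, k3⟩ := h.cover_top hc (Cl j) (fun _ _ _ hA ht => hA.mono ht)
    (fun _ _ _ _ hA hB => hA.union hB) (Cl.of_subsingleton Set.subsingleton_empty le_rfl)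
    (γ := 1 + s * (s + 3)) (by omega) (Lf := Wide (Cl j s)) (L0 := L)
    (by
      rintro A ⟨M, hM, rfl⟩ m h1 h2
      obtain ⟨D', m', l1, l2, l3, l4⟩ := h.wide_term hc
        (Cl.of_subsingleton (j := j) Set.subsingleton_singleton hs) M hM m h1 h2
      obtain ⟨Z, n1, n2, n3⟩ := h.cover_inner hc hs j D' l1 m' l2 l3
      exact ⟨Z, n1, n2, fun x hx => n3 ⟨l4 hx, hx.2⟩⟩)
    (by
      intro B hB m h1 h2
      by_cases hne : ∃ x ∈ {m} + B, w x = w p - 1
      · have e1 := level_eq_face w (h.below h1 h2) hne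
        have e2 : face w ({m} + B) = {m} + face w B := by
          rw [face_add]
          congr 1
          ext x
          simp only [face, Set.mem_singleton_iff, Set.mem_ofPred_eq]
          exact ⟨fun h => h.1, fun h => ⟨h, fun y hy => by rw [h, hy]⟩⟩
        have e3 : ({m} + B) ∩ Q c ⊆ ({m} + face w B) ∩ Q c := by
          rw [← e2, ← e1]
          exact fun x hx => ⟨⟨hx.1, h.hw c hc x hx.2⟩, hx.2⟩
        have e4 : {m} + face w B ⊆ U J Q := by
          rw [← e2, ← e1]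
          exact h.level_sub h1
        rcases Set.subsingleton_or_nontrivial (face w B) with h3 | h3
        · refine ⟨_, Cl.of_subsingleton ?_ (by omega), Set.inter_subset_right, e3⟩
          rw [Set.singleton_add]
          exact (h3.image _).anti Set.inter_subset_left
        · exact ⟨ZA, a1', a2, e3.trans (a3 _ (List.mem_map_of_mem hB) h3 m e4)⟩
      · exact ⟨∅, Cl.of_subsingleton Set.subsingleton_empty (by omega), Set.empty_subset _,
          fun x hx => hne ⟨x, hx.1, h.hw c hc x hx.2⟩⟩)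
    hL (fun _ hx => hx)
  refine ⟨c, hc, ?_⟩
  have e0 : ({0} : Set G) + F = F := by rw [Set.singleton_zero, zero_add]
  have e1 := k3 F hm 0 (by rw [e0]; exact h.top) (by rw [e0])
  rw [e0] at e1
  have e2 : Q c = Z := Set.Subset.antisymm (fun x hx => e1 ⟨h.sub c hc hx, hx⟩) k2
  rw [e2]
  refine k1.mono ?_
  have h1 : L.length * (1 + s * (s + 3) + 1) ≤ s * (1 + s * (s + 3) + 1) :=
    Nat.mul_le_mul_right _ hl
  have h2 : 1 + s * (1 + s * (s + 3) + 1) + 2 ≤ (s + 2) ^ 3 := by nlinarith [Nat.zero_le (s * s)]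
  omega

end Lay

theorem hard_bound {N : ℕ} : ∀ (j s : ℕ) (F : Set G), Hard N j F → Cl j s F → 1 ≤ s →
    N + 2 ≤ (s + 2) ^ 3 ^ j
  | 0, s, F, hF, hC, _ => by
    have h1 : (N : ℕ∞) ≤ s := le_trans hF hC
    have h2 : N ≤ s := by exact_mod_cast h1
    simpa using h2
  | j + 1, s, F, hF, hC, hs => by
    obtain ⟨ι, J, τ, p, Q, w, y, z, y0, z0, hlay, hN, hH⟩ := hF
    by_cases hJ : s < J.card
    · obtain ⟨c, hc, h1⟩ := hlay.descend hs hJ hC
      have h3 : 3 ^ 3 ≤ (s + 2) ^ 3 := Nat.pow_le_pow_left (by omega) 3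
      have h2 := hard_bound j _ _ (hH c hc) h1 (by omega)
      rw [Nat.sub_add_cancel (by omega), ← pow_mul] at h2
      rwa [pow_succ']
    · have h1 : s + 2 ≤ (s + 2) ^ 3 ^ (j + 1) := Nat.le_self_pow (by positivity) _
      omega

end Pool.Agent.MP_a2d820_lc.h8
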