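import Pool.Agent.MP_a2d820_lc.h8.Lower
import Pool.Agent.MP_a2d820_lc.h28.Comp

/-! Supports of polynomials computed by programs of small nesting depth lie in the classes `Cl`. -/

namespace Pool.Agent.MP_a2d820_lc.h8

open Pointwise MvPolynomial
open scoped NNReal
open Pool.Agent.MP_a2d820_lc.h28

variable {V : Type} [DecidableEq V]

/-- exponent vector as a rational vector -/
def emb (m : V →₀ ℕ) : V → ℚ := fun v => (m v : ℚ)

omit [DecidableEq V] in
theorem emb_add (a b : V →₀ ℕ) : emb (a + b) = emb a + emb b := by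
  funext v; simp [emb]

/-- support as a set of rational vectors -/
def sp (p : MvPolynomial V ℝ≥0) : Set (V → ℚ) := emb '' (p.support : Set (V →₀ ℕ))

omit [DecidableEq V] in
theorem sp_congr {p q : MvPolynomial V ℝ≥0} (h : p.support = q.support) : sp p = sp q := by
  unfold sp; rw [h]

omit [DecidableEq V] in
theorem sp_add (p q : MvPolynomial V ℝ≥0) : sp (p + q) = sp p ∪ sp q := by
  unfold sp
  rw [← Set.image_union]
  congr 1
  ext m
  simp only [Finset.mem_coe, Set.mem_union]
  exact mem_supp_add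

theorem sp_mul (p q : MvPolynomial V ℝ≥0) : sp (p * q) = sp p + sp q := by
  ext x
  constructor
  · rintro ⟨m, hm, rfl⟩
    obtain ⟨a, ha, b, hb, rfl⟩ := mem_supp_mul.1 (Finset.mem_coe.1 hm)
    exact ⟨emb a, ⟨a, ha, rfl⟩, emb b, ⟨b, hb, rfl⟩, (emb_add a b).symm⟩
  · rintro ⟨_, ⟨a, ha, rfl⟩, _, ⟨b, hb, rfl⟩, rfl⟩
    exact ⟨a + b, Finset.mem_coe.2 (mem_supp_mul.2 ⟨a, ha, b, hb, rfl⟩), emb_add a b⟩

omit [DecidableEq V] in
theorem sp_zero : sp (0 : MvPolynomial V ℝ≥0) = ∅ := by simp [sp]

omit [DecidableEq V] in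
theorem sp_one : sp (1 : MvPolynomial V ℝ≥0) = {0} := by
  unfold sp
  have : (1 : MvPolynomial V ℝ≥0).support = {0} := by
    rw [← C_1, ← monomial_zero', support_monomial, if_neg one_ne_zero]
  rw [this]
  simp only [Finset.coe_singleton, Set.image_singleton]
  congr 1

theorem sp_X (v : V) : sp (X v : MvPolynomial V ℝ≥0) = {Pi.single v 1} := by
  unfold sp
  rw [support_X]
  simp only [Finset.coe_singleton, Set.image_singleton]
  congr 1
  funext u
  by_cases h : u = v
  · subst h; simp [emb]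
  · simp [emb, h]

theorem wide_block {K : Set (V → ℚ) → Prop} {p : MvPolynomial V ℝ≥0}
    (h : ∀ θ, Simple θ → K (sp (bind₁ θ p))) (Q : List (Qt × V)) :
    ∀ θ, Simple θ → Wide K (sp (bind₁ θ (block Q p))) := by
  induction Q with
  | nil => exact fun θ hθ => Wide.single (h θ hθ)
  | cons q Q ih =>
    intro θ hθ
    obtain ⟨k, z⟩ := q
    cases k with
    | sum =>
      simp only [block]
      rw [sp_congr (supp_bind_sum θ z _)]
      exact ih _ (hθ.update _ _)
    | prod =>
      simp only [block]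
      rw [bind_prod, sp_mul]
      obtain ⟨M, hM, e⟩ := ih _ (hθ.update z 0)
      obtain ⟨M', hM', e'⟩ := ih _ (hθ.update z 1)
      refine ⟨M ++ M', fun D hD => ?_, by rw [List.sum_append, e, e']⟩
      rcases List.mem_append.1 hD with hD | hD
      · exact hM D hD
      · exact hM' D hD
    | set0 =>
      simp only [block, app, bind_fix]
      exact ih _ (hθ.update _ _)
    | set1 =>
      simp only [block, app, bind_fix]
      exact ih _ (hθ.update _ _)

theorem slp_length {ok : Qt → Prop} {L : List (MvPolynomial V ℝ≥0 × ℕ)} {s : ℕ}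
    (h : SLP ok L s) : L.length ≤ s := by
  induction h <;> simp only [List.length_cons, List.length_nil] <;> omega

theorem slp_prog {ok : Qt → Prop} {L0 : List (MvPolynomial V ℝ≥0 × ℕ)} {s0 d : ℕ} (hs : 1 ≤ s0)
    (H : ∀ g ∈ L0, g.2 < d → ∀ θ, Simple θ → Cl d s0 (sp (bind₁ θ g.1)))
    (θ : V → MvPolynomial V ℝ≥0) (hθ : Simple θ) {L : List (MvPolynomial V ℝ≥0 × ℕ)} {s : ℕ}
    (h : SLP ok L s) (hsub : L ⊆ L0) :
    Prog (Wide (Cl d s0)) (L.map fun g => if g.2 ≤ d then sp (bind₁ θ g.1) else ∅) := by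
  have hE : Wide (Cl d s0) (∅ : Set (V → ℚ)) :=
    Wide.single (Cl.of_subsingleton Set.subsingleton_empty hs)
  induction h with
  | nil => exact .nil
  | const L s c e _ ih =>
    rw [List.map_cons]
    refine .leaf ?_ (ih fun _ hx => hsub (List.mem_cons_of_mem _ hx))
    split_ifs
    · refine Wide.single (Cl.of_subsingleton ?_ hs)
      simp only [bind₁_C_right]
      exact (supp_C_sub c).image _
    · exact hE
  | var L s v e _ ih =>
    rw [List.map_cons]
    refine .leaf ?_ (ih fun _ hx => hsub (List.mem_cons_of_mem _ hx))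
    split_ifs
    · refine Wide.single (Cl.of_subsingleton ?_ hs)
      simp only [bind₁_X_right]
      exact (hθ v).image _
    · exact hE
  | add L s p q a b e _ hp hq ha hb ih =>
    have ih' := ih fun _ hx => hsub (List.mem_cons_of_mem _ hx)
    rw [List.map_cons]
    split_ifs with he
    · simp only [map_add, sp_add]
      refine .union ?_ ?_ ih'
      · exact List.mem_map.2 ⟨(p, a), hp, if_pos (ha.trans he)⟩
      · exact List.mem_map.2 ⟨(q, b), hq, if_pos (hb.trans he)⟩
    · exact .leaf hE ih'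
  | mul L s p q a b e _ hp hq ha hb ih =>
    have ih' := ih fun _ hx => hsub (List.mem_cons_of_mem _ hx)
    rw [List.map_cons]
    split_ifs with he
    · simp only [map_mul, sp_mul]
      refine .add ?_ ?_ ih'
      · exact List.mem_map.2 ⟨(p, a), hp, if_pos (ha.trans he)⟩
      · exact List.mem_map.2 ⟨(q, b), hq, if_pos (hb.trans he)⟩
    · exact .leaf hE ih'
  | quant L s p a e Q _ hp ha _ ih =>
    have ih' := ih fun _ hx => hsub (List.mem_cons_of_mem _ hx)
    rw [List.map_cons]
    refine .leaf ?_ ih'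
    split_ifs with he
    · exact wide_block (H (p, a) (hsub (List.mem_cons_of_mem _ hp)) (ha.trans_le he)) Q θ hθ
    · exact hE

theorem slp_cl {ok : Qt → Prop} {L : List (MvPolynomial V ℝ≥0 × ℕ)} {s : ℕ} (h : SLP ok L s)
    (hs : 1 ≤ s) : ∀ d, ∀ g ∈ L, g.2 < d → ∀ θ, Simple θ → Cl d s (sp (bind₁ θ g.1))
  | 0, _, _, hg, _, _ => absurd hg (Nat.not_lt_zero _)
  | d + 1, g, hg, hd, θ, hθ =>
    ⟨_, slp_prog hs (slp_cl h hs d) θ hθ h (fun _ hx => hx), by simpa using slp_length h,
      List.mem_map.2 ⟨g, hg, if_pos (Nat.lt_succ_iff.1 hd)⟩⟩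

theorem computes_cl {ok : Qt → Prop} {f : MvPolynomial V ℝ≥0} {s k : ℕ} (h : Computes ok f s k) :
    1 ≤ s ∧ Cl (k + 1) s (sp f) := by
  obtain ⟨L, hL, hf⟩ := h
  have hs : 1 ≤ s := le_trans (List.length_pos_of_mem hf) (slp_length hL)
  have := slp_cl hL hs (k + 1) (f, k) hf (Nat.lt_succ_self k) X simple_X
  rw [bind₁_X_left] at this
  exact ⟨hs, this⟩

end Pool.Agent.MP_a2d820_lc.h8
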