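import Pool.Agent.MP_a2d820_lc.h8.Face

/-! Small programs for the separating polynomials, and the hierarchy theorem. -/

namespace Pool.Agent.MP_a2d820_lc.h8

open Pointwise MvPolynomial Finset
open scoped NNReal
open Pool.Agent.MP_a2d820_lc.h28

variable {ok : Qt → Prop} {H : List (Pl × ℕ)}

theorem comp_add {p q : Pl} {a b d c c' : ℕ} (hp : Comp ok H p a c) (hq : Comp ok H q b c')
    (ha : a ≤ d) (hb : b ≤ d) : Comp ok H (p + q) d (c + c' + 1) := by
  intro L s hL hH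
  obtain ⟨L1, s1, h1, h2, h3, h4⟩ := hp L s hL hH
  obtain ⟨L2, s2, h5, h6, h7, h8⟩ := hq L1 s1 h1 (List.Subset.trans hH h3)
  exact ⟨_, _, SLP.add L2 s2 p q a b d h5 (h7 h4) h8 ha hb, by omega,
    List.Subset.trans (List.Subset.trans h3 h7) (List.subset_cons_self _ _), List.mem_cons_self⟩

theorem comp_mul {p q : Pl} {a b d c c' : ℕ} (hp : Comp ok H p a c) (hq : Comp ok H q b c')
    (ha : a ≤ d) (hb : b ≤ d) : Comp ok H (p * q) d (c + c' + 1) := by
  intro L s hL hH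
  obtain ⟨L1, s1, h1, h2, h3, h4⟩ := hp L s hL hH
  obtain ⟨L2, s2, h5, h6, h7, h8⟩ := hq L1 s1 h1 (List.Subset.trans hH h3)
  exact ⟨_, _, SLP.mul L2 s2 p q a b d h5 (h7 h4) h8 ha hb, by omega,
    List.Subset.trans (List.Subset.trans h3 h7) (List.subset_cons_self _ _), List.mem_cons_self⟩

theorem comp_cut {p q : Pl} {d e c c' : ℕ} (hp : Comp ok H p d c)
    (hq : Comp ok ((p, d) :: H) q e c') : Comp ok H q e (c + c') := by
  intro L s hL hH
  obtain ⟨L1, s1, h1, h2, h3, h4⟩ := hp L s hL hH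
  obtain ⟨L2, s2, h5, h6, h7, h8⟩ := hq L1 s1 h1
    (List.cons_subset.2 ⟨h4, List.Subset.trans hH h3⟩)
  exact ⟨L2, s2, h5, by omega, List.Subset.trans h3 h7, h8⟩

theorem comp_weaken {H' : List (Pl × ℕ)} {q : Pl} {e c : ℕ} (hq : Comp ok H q e c)
    (h : H ⊆ H') : Comp ok H' q e c :=
  fun L s hL hH => hq L s hL (List.Subset.trans h hH)

theorem comp_cuts {W : ℕ → Pl} {q : Pl} {e c c' : ℕ} (B : ℕ) : ∀ H : List (Pl × ℕ),
    (∀ i < B, Comp ok H (W i) 0 c) →
    (∀ H' : List (Pl × ℕ), (∀ i < B, (W i, 0) ∈ H') → Comp ok H' q e c') →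
    Comp ok H q e (B * c + c') := by
  have key : ∀ B, ∀ H : List (Pl × ℕ), (∀ i < B, Comp ok H (W i) 0 c) → ∀ L s, SLP ok L s →
      H ⊆ L → ∃ L' s', SLP ok L' s' ∧ s' ≤ s + B * c ∧ L ⊆ L' ∧ ∀ i < B, (W i, 0) ∈ L' := by
    intro B H
    induction B with
    | zero => exact fun _ L s hL _ => ⟨L, s, hL, by simp, List.Subset.refl _, by simp⟩
    | succ B ih =>
      intro h L s hL hH
      obtain ⟨L1, s1, h1, h2, h3, h4⟩ := ih (fun i hi => h i (by omega)) L s hL hH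
      obtain ⟨L2, s2, h5, h6, h7, h8⟩ := h B (by omega) L1 s1 h1 (List.Subset.trans hH h3)
      refine ⟨L2, s2, h5, by rw [add_mul]; omega, List.Subset.trans h3 h7, fun i hi => ?_⟩
      rcases Nat.lt_succ_iff_lt_or_eq.1 hi with hi | rfl
      · exact h7 (h4 i hi)
      · exact h8
  intro H h hq L s hL hH
  obtain ⟨L1, s1, h1, h2, h3, h4⟩ := key B H h L s hL hH
  obtain ⟨L2, s2, h5, h6, h7, h8⟩ := hq L1 h4 L1 s1 h1 (List.Subset.refl _)
  exact ⟨L2, s2, h5, by omega, List.Subset.trans h3 h7, h8⟩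

theorem comp_pow (l : ℕ) : ∀ (H : List (Pl × ℕ)) (p : Pl) (c D : ℕ), Comp ok H p 0 c →
    D < 2 ^ l → Comp ok H (p ^ D) 0 (c + 2 * l + 1) := by
  induction l with
  | zero =>
    intro H p c D _ hD
    have : D = 0 := by simpa using hD
    subst this
    simpa using (Comp.const (ok := ok) (H := H) 1 0).mono (by omega)
  | succ l ih =>
    intro H p c D hp hD
    have h0 : Comp ok ((p, 0) :: H) p 0 0 := Comp.hyp List.mem_cons_self
    have h1 := ih ((p, 0) :: H) (p * p) _ (D / 2) (h0.mul h0) (by rw [pow_succ] at hD; omega)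
    rcases Nat.mod_two_eq_zero_or_one D with h | h
    · have e : p ^ D = (p * p) ^ (D / 2) := by
        rw [← pow_two, ← pow_mul]; congr 1; omega
      rw [e]
      exact (comp_cut hp h1).mono (by omega)
    · have e : p ^ D = (p * p) ^ (D / 2) * p := by
        rw [← pow_two, ← pow_mul, ← pow_succ]; congr 1; omega
      rw [e]
      exact (comp_cut hp (h1.mul h0)).mono (by omega)

theorem comp_PowG (n l : ℕ) {p : Pl} {c : ℕ} (hp : Comp ok H p 0 c) :
    Comp ok H (PowG n l p) 0 (c + (n * (2 * n + 6) + 1)) := by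
  have h0 : Comp ok ((p, 0) :: H) p 0 0 := Comp.hyp List.mem_cons_self
  have := Comp.prod (ok := ok) (H := (p, 0) :: H) (range n)
    (fun b => X (2 * n * l + b) * p ^ 2 ^ b + X (2 * n * l + n + b)) (d := 0) (c := 2 * n + 5)
    fun b hb => (((Comp.var _ 0).mul (comp_pow n _ p 0 (2 ^ b) h0
      (Nat.pow_lt_pow_right (by omega) (mem_range.1 hb)))).add (Comp.var _ 0)).mono (by omega)
  rw [card_range] at this
  exact comp_cut hp this

theorem Dg_lt (n : ℕ) : ∀ j, Dg n j + 1 ≤ 2 ^ ((2 * n + 1) * j)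
  | 0 => by simp [Dg]
  | j + 1 => by
    have ih := Dg_lt n j
    have h1 : Dg n (j + 1) ≤ 2 ^ n * (2 ^ n * (Dg n j + 1)) := by
      rw [Dg]
      refine (sum_le_card_nsmul _ _ (2 ^ n * (Dg n j + 1)) fun s _ => ?_).trans ?_
      · refine (sum_le_card_nsmul _ _ (Dg n j + 1) fun s' _ => ?_).trans ?_
        · split_ifs <;> omega
        · simp
      · simp
    have h2 : 2 ^ ((2 * n + 1) * (j + 1)) = 2 * (2 ^ n * (2 ^ n * 2 ^ ((2 * n + 1) * j))) := by
      ring
    have h3 : 2 ^ n * (2 ^ n * (Dg n j + 1)) ≤ 2 ^ n * (2 ^ n * 2 ^ ((2 * n + 1) * j)) := by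
      gcongr
    have h4 : 0 < 2 ^ n * (2 ^ n * 2 ^ ((2 * n + 1) * j)) := by positivity
    omega

theorem QL_ok (a m : ℕ) : (∀ q ∈ QL a m, q.1 = Qt.prod) ∧ (QL a m).length = m := by
  induction m with
  | zero => simp [QL]
  | succ m ih =>
    refine ⟨fun q hq => ?_, by simp [QL, ih.2]⟩
    rcases List.mem_cons.1 hq with rfl | hq
    · rfl
    · exact ih.1 q hq

theorem comp_Fm (n t : ℕ) : ∀ (j : ℕ) (W : ℕ → Pl) (H : List (Pl × ℕ)),
    (∀ i < 2 ^ (j + 2) - 3, (W i, 0) ∈ H) →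
    Comp (fun q => q = Qt.prod) H (Fm n t j W) j (2 ^ j * (8 * n ^ 2 + 40 * n + 40))
  | 0, W, H, hW => by
    have h0 : Comp (fun q => q = Qt.prod) H (W 0) 0 0 := Comp.hyp (hW 0 (by norm_num))
    have := Comp.prod (ok := fun q => q = Qt.prod) (H := H) (range n)
      (fun b => 1 + W 0 ^ 2 ^ b) (d := 0) (c := 2 * n + 3)
      fun b hb => by
        have h1 := (Comp.const (ok := fun q => q = Qt.prod) (H := H) 1 0).add
          (comp_pow n _ _ 0 (2 ^ b) h0 (Nat.pow_lt_pow_right (by omega) (mem_range.1 hb)))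
        rw [C_1] at h1
        exact h1.mono (by omega)
    rw [card_range] at this
    exact this.mono (by nlinarith)
  | j + 1, W, H, hW => by
    have hp : 1 ≤ 2 ^ j := Nat.one_le_two_pow
    have hp2 : 2 ^ (j + 2) = 4 * 2 ^ j := by ring
    have hp3 : 2 ^ (j + 1 + 2) = 8 * 2 ^ j := by ring
    have h0 : ∀ i < 2 ^ (j + 1 + 2) - 3, Comp (fun q => q = Qt.prod) H (W i) 0 0 :=
      fun i hi => Comp.hyp (hW i hi)
    have h1 : Comp (fun q => q = Qt.prod) H (Fm n t j (shear n j W)) j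
        ((2 ^ (j + 2) - 3) * (n * (2 * n + 6) + 2) + 2 ^ j * (8 * n ^ 2 + 40 * n + 40)) :=
      comp_cuts _ H (fun i hi => ((h0 _ (by omega)).mul
        (comp_PowG n j (h0 _ (by omega)))).mono (by omega)) (comp_Fm n t j _)
    have hD := Dg_lt n j
    have hD' : 2 ^ ((2 * n + 1) * j + 1) = 2 * 2 ^ ((2 * n + 1) * j) := by ring
    have h2 := fun D hD => comp_pow (ok := fun q => q = Qt.prod) ((2 * n + 1) * j + 1) H (X t) 1 D
      (Comp.var t 0) hD
    have h3 : Comp (fun q => q = Qt.prod) H (Ov n j) 0 (n * 4 + 1) := by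
      have := Comp.sum (ok := fun q => q = Qt.prod) (H := H) (range n)
        (fun b => X (2 * n * j + b) * X (2 * n * j + n + b)) (d := 0) (c := 3)
        fun b _ => (Comp.var _ 0).mul (Comp.var _ 0)
      rwa [card_range] at this
    have h4 := comp_add (d := j) (comp_add (d := j)
      ((h0 0 (by omega)).mul (h2 (Dg n j) (by omega)))
      (comp_mul (d := j) ((comp_PowG n j (h0 1 (by omega))).mul
        (comp_PowG n j (comp_PowG n j (h0 2 (by omega))))) h1 (Nat.zero_le _) le_rfl)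
      (Nat.zero_le _) le_rfl) ((h2 (Dg n j + 1) (by omega)).mul h3) le_rfl (Nat.zero_le _)
    have h5 := h4.quant (QL (2 * n * j) n ++ QL (2 * n * j + n) n) fun q hq => by
      rcases List.mem_append.1 hq with hq | hq
      · exact (QL_ok _ _).1 q hq
      · exact (QL_ok _ _).1 q hq
    rw [List.length_append, (QL_ok _ _).2, (QL_ok _ _).2] at h5
    refine h5.mono ?_
    have hj : j + 1 ≤ 2 ^ j := Nat.lt_two_pow_self
    obtain ⟨r, hr⟩ : ∃ r, 2 ^ (j + 2) = r + 3 := ⟨2 ^ (j + 2) - 3, by omega⟩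
    rw [hr, Nat.add_sub_cancel, pow_succ 2 j]
    have e1 : (r + 3) * (n * (2 * n + 6) + 2) = 4 * 2 ^ j * (n * (2 * n + 6) + 2) := by
      rw [← hr, hp2]
    have e2 : (2 * n + 1) * (j + 1) ≤ (2 * n + 1) * 2 ^ j := Nat.mul_le_mul_left _ hj
    have e3 : n ≤ n * 2 ^ j := Nat.le_mul_of_pos_right _ hp
    nlinarith

theorem hierarchy (k n : ℕ) : ∃ f : Pl,
    (∃ s ≤ 100 * 2 ^ k * (n + 1) ^ 2, Computes (fun q => q = Qt.prod) f s (k + 1)) ∧
    ∀ (g : Pl) (s : ℕ), g.support = f.support → Computes (fun _ => True) g s k →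
      2 ^ n ≤ (s + 2) ^ 3 ^ (k + 1) := by
  set t := 2 * n * (k + 1) with ht
  refine ⟨Fm n t (k + 1) fun i => X (t + 1 + i), ?_, ?_⟩
  · obtain ⟨s, hs, h⟩ := (comp_cuts (c := 1) (2 ^ (k + 1 + 2) - 3) []
      (fun i _ => Comp.var (t + 1 + i) 0) (comp_Fm n t (k + 1) fun i => X (t + 1 + i))).computes
    refine ⟨s, hs.trans ?_, h⟩
    have hp : 1 ≤ 2 ^ k := Nat.one_le_two_pow
    have h1 : 2 ^ (k + 1 + 2) - 3 ≤ 8 * 2 ^ k := by
      have : 2 ^ (k + 1 + 2) = 8 * 2 ^ k := by ring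
      omega
    rw [pow_succ 2 k]
    nlinarith [Nat.zero_le (2 ^ k * n), Nat.zero_le (2 ^ k * n ^ 2)]
  · intro g s hg hc
    obtain ⟨hs, hcl⟩ := computes_cl hc
    rw [sp_congr hg] at hcl
    have hX : Good X := fun _ => Or.inl rfl
    have hB : ∀ i θ, Good θ → Le t (bind₁ θ (X (t + 1 + i) : Pl)) 0 := fun i θ hθ => by
      rw [bind₁_X_right]; exact hθ.le_ne (by omega)
    have h1 := (hard_Fm (k + 1) le_rfl (fun i => X (t + 1 + i)) hB X hX rfl
      (fun i => Pi.single (t + 1 + i) 1) (fun i => LinearMap.proj (t + 1 + i))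
      (fun i i' => by
        by_cases h : i = i'
        · simp [h]
        · simp [h])
      (fun i => Pi.single_eq_of_ne (M := fun _ => ℚ) (by omega : t + 1 + i ≠ t) (1 : ℚ))
      (fun i => Pi.single_eq_of_ne (M := fun _ => ℚ) (by omega : t ≠ t + 1 + i) (1 : ℚ))
      (fun i θ' h => by rw [bind₁_X_right, h _ (by omega), sp_X])).1
    have h2 := le_Fm (k + 1) le_rfl (fun i => X (t + 1 + i)) hB X hX
    rw [bind₁_X_left] at h1 h2
    have h3 := hard_bound (k + 1) s _ h1 (hcl.level (co t) hs h2) hs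
    omega

end Pool.Agent.MP_a2d820_lc.h8
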